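import Pool.Agent.LibH11.Renorm.Glue

/-!
# Discrete subsets of compact spaces with small characters

helper44, problem MP_2b9b38_an.
-/

set_option autoImplicit false

open Set Cardinal Topology TopologicalSpace

universe u

namespace Pool.Agent.Lib_helper44.Asp.Char

/-- Recursion on a well order with values depending on the set of the earlier values. -/
theorem exists_rec {I α : Type*} [LinearOrder I] [WellFoundedLT I] (pick : Set α → α) :
    ∃ x : I → α, ∀ i, x i = pick (x '' Iio i) := by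
  classical
  let F : ∀ i : I, (∀ j : I, j < i → α) → α :=
    fun i rec => pick {y | ∃ j, ∃ h : j < i, rec j h = y}
  refine ⟨WellFounded.fix wellFounded_lt F, fun i => ?_⟩
  rw [WellFounded.fix_eq]
  show pick _ = pick _
  congr 1
  ext y
  simp only [mem_ofPred_eq, mem_image, mem_Iio, exists_prop]

variable {K : Type u} [TopologicalSpace K]

/-- If `C(K)` is an Asplund space then every nonempty subset of `K` has an isolated point. -/
theorem exists_isolated [CompactSpace K] [T2Space K] (hA : LibH11.Renorm.IsAsplund C(K, ℝ))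
    {A : Set K} (hne : A.Nonempty) :
    ∃ a ∈ A, ∃ U : Set K, IsOpen U ∧ a ∈ U ∧ ∀ b ∈ U, b ∈ A → b = a := by
  let ev : K → WeakDual ℝ C(K, ℝ) :=
    fun x => StrongDual.toWeakDual (ContinuousMap.evalCLM ℝ x)
  have hev : Continuous ev := WeakDual.continuous_of_continuous_eval fun f => by
    show Continuous (fun x => f x)
    exact f.continuous
  have hnorm : ∀ x : K, ‖(ContinuousMap.evalCLM ℝ x : C(K, ℝ) →L[ℝ] ℝ)‖ ≤ 1 := by
    intro x
    refine ContinuousLinearMap.opNorm_le_bound _ zero_le_one fun f => ?_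
    rw [one_mul]
    exact f.norm_coe_le_norm x
  obtain ⟨U, hU, ⟨g, hgU, a, ha, rfl⟩, hd⟩ := LibH11.Renorm.exists_frag hA (A := ev '' A)
    (hne.image _) (r := 1) (by
      rintro _ ⟨x, _, rfl⟩
      rw [mem_preimage, mem_closedBall_zero_iff]
      exact hnorm x) (ε := 1 / 2) (by norm_num)
  refine ⟨a, ha, ev ⁻¹' U, hU.preimage hev, hgU, fun b hb hbA => ?_⟩
  by_contra hba
  obtain ⟨f, hf0, hf1, hf⟩ := exists_continuous_zero_one_of_isClosed
    (isClosed_singleton (x := a)) (isClosed_singleton (x := b))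
    (by rw [disjoint_singleton]; exact fun h => hba h.symm)
  have h1 := hd (ev b) ⟨hb, b, hbA, rfl⟩ (ev a) ⟨hgU, a, ha, rfl⟩
  have h2 := (WeakDual.toStrongDual (ev b) - WeakDual.toStrongDual (ev a)).le_opNorm f
  have h3 : (WeakDual.toStrongDual (ev b) - WeakDual.toStrongDual (ev a)) f = 1 := by
    show f b - f a = 1
    rw [hf0 (mem_singleton a), hf1 (mem_singleton b)]
    simp
  have h4 : ‖f‖ ≤ 1 := by
    rw [ContinuousMap.norm_le _ zero_le_one]
    intro x
    rw [Real.norm_eq_abs, abs_le]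
    exact ⟨by linarith [(hf x).1], (hf x).2⟩
  rw [h3, norm_one] at h2
  have h5 := mul_le_mul h1 h4 (norm_nonneg f) (by norm_num : (0 : ℝ) ≤ 1 / 2)
  linarith

/-- Every nonempty subset has an isolated point. -/
def Scattered (K : Type u) [TopologicalSpace K] : Prop :=
  ∀ A : Set K, A.Nonempty → ∃ a ∈ A, ∃ U : Set K, IsOpen U ∧ a ∈ U ∧ ∀ b ∈ U, b ∈ A → b = a

/-- `x` is the intersection of fewer than `lam` open sets. -/
def Small (lam : Cardinal.{u}) (x : K) : Prop :=
  ∃ B : Set (Set K), #B < lam ∧ (∀ U ∈ B, IsOpen U) ∧ ⋂₀ B = {x}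

/-- Bounded subsets of initial ordinals of regular cardinals. -/
theorem exists_bound {ν : Cardinal.{u}} (hν : ν.IsRegular) (S : Set ν.ord.ToType) (hS : #S < ν) :
    ∃ g : ν.ord.ToType, ∀ s ∈ S, s < g := by
  by_contra hno
  push Not at hno
  have h1 : IsCofinal S := by
    intro g
    obtain ⟨s, hs, hgs⟩ := hno g
    exact ⟨s, hs, hgs⟩
  have h2 := Order.cof_le h1
  rw [Ordinal.cof_toType, hν.cof_ord] at h2
  exact absurd h2 (not_le.mpr hS)

theorem mk_Iio_lt {ν : Cardinal.{u}} (i : ν.ord.ToType) : #(Iio i) < ν :=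
  (Cardinal.mk_Iio_lt i (by rw [mk_toType, card_ord, Ordinal.type_toType])).trans_eq
    (by rw [mk_toType, card_ord])

/-- An enumeration of points of `K` with open initial segments. -/
theorem exists_enum (hA : Scattered K) {ν : Cardinal.{u}} (hν0 : ℵ₀ ≤ ν) (hν : ν ≤ #K) :
    ∃ x : ν.ord.ToType → K, Function.Injective x ∧ (∀ i, IsOpen (x '' Iio i)) ∧
      ∀ i, IsOpen (x '' Iic i) := by
  have hK : Nonempty K := by
    rw [← mk_ne_zero_iff]
    intro h
    rw [h] at hν
    exact absurd (hν0.trans hν) (not_le.mpr aleph0_pos)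
  have hpick : ∀ S : Set K, ∃ a : K, S ≠ Set.univ →
      a ∉ S ∧ ∃ U : Set K, IsOpen U ∧ a ∈ U ∧ U ⊆ insert a S := by
    intro S
    by_cases hS : S = Set.univ
    · exact ⟨hK.some, fun h => absurd hS h⟩
    · obtain ⟨a, ha, U, hU, haU, hUS⟩ := hA Sᶜ (nonempty_compl.mpr hS)
      refine ⟨a, fun _ => ⟨ha, U, hU, haU, fun b hb => ?_⟩⟩
      by_cases hbS : b ∈ S
      · exact mem_insert_of_mem _ hbS
      · rw [hUS b hb hbS]
        exact mem_insert _ _
  choose pick hp using hpick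
  obtain ⟨x, hx⟩ := exists_rec (I := ν.ord.ToType) pick
  have hne : ∀ i, x '' Iio i ≠ Set.univ := by
    intro i h
    have h1 : #(x '' Iio i) < ν := mk_image_le.trans_lt (mk_Iio_lt i)
    rw [h, mk_univ] at h1
    exact absurd h1 (not_lt.mpr hν)
  have h1 : ∀ i, x i ∉ x '' Iio i := by
    intro i
    have h := (hp _ (hne i)).1
    rwa [← hx i] at h
  have h2 : ∀ i, ∃ U : Set K, IsOpen U ∧ x i ∈ U ∧ U ⊆ insert (x i) (x '' Iio i) := by
    intro i
    have h := (hp _ (hne i)).2
    rwa [← hx i] at h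
  choose U hU hxU hUs using h2
  have h3 : ∀ i, IsOpen (x '' Iio i) := by
    intro i
    induction i using WellFoundedLT.induction with
    | ind i ih =>
      have h4 : x '' Iio i = ⋃ j ∈ Iio i, (x '' Iio j ∪ U j) := by
        ext y
        simp only [mem_image, mem_Iio, mem_iUnion, mem_union, exists_prop]
        constructor
        · rintro ⟨j, hj, rfl⟩
          exact ⟨j, hj, Or.inr (hxU j)⟩
        · rintro ⟨j, hj, ⟨k, hk, rfl⟩ | hy⟩
          · exact ⟨k, hk.trans hj, rfl⟩
          · rcases hUs j hy with rfl | ⟨k, hk, rfl⟩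
            · exact ⟨j, hj, rfl⟩
            · exact ⟨k, lt_trans hk hj, rfl⟩
      rw [h4]
      exact isOpen_biUnion fun j hj => (ih j hj).union (hU j)
  refine ⟨x, ?_, h3, ?_⟩
  · intro i j hij
    rcases lt_trichotomy i j with h | h | h
    · exact absurd ⟨i, h, hij⟩ (h1 j)
    · exact h
    · exact absurd ⟨j, h, hij.symm⟩ (h1 i)
  · intro i
    have h4 : x '' Iic i = x '' Iio i ∪ U i := by
      ext y
      constructor
      · rintro ⟨j, hj, rfl⟩
        rcases (mem_Iic.mp hj).eq_or_lt with rfl | h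
        · exact Or.inr (hxU j)
        · exact Or.inl ⟨j, h, rfl⟩
      · rintro (⟨j, hj, rfl⟩ | hy)
        · exact ⟨j, (mem_Iio.mp hj).le, rfl⟩
        · rcases hUs i hy with rfl | ⟨k, hk, rfl⟩
          · exact ⟨i, mem_Iic.mpr le_rfl, rfl⟩
          · exact ⟨k, (mem_Iio.mp hk).le, rfl⟩
    rw [h4]
    exact (h3 i).union (hU i)

/-- The closing-off argument. -/
theorem exists_level [CompactSpace K] {lam ν : Cardinal.{u}} (hlam : lam.IsRegular)
    (hν : ν.IsRegular) (hlt : lam < ν) (x : ν.ord.ToType → K)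
    (hop : ∀ i, IsOpen (x '' Iio i)) (V : ν.ord.ToType → Set K) (hVc : ∀ i, IsClosed (V i))
    (hV : ∀ i, V i ⊆ x '' Iic i) (hfew : #{i | ¬ Small lam (x i)} < ν) :
    ∃ g, ν ≤ #{i | V i ⊆ insert (x i) (x '' Iio g)} := by
  by_contra hno
  push Not at hno
  have hA : ∀ g, ∃ h, ∀ i ∈ {i | V i ⊆ insert (x i) (x '' Iio g)}, i < h :=
    fun g => exists_bound hν _ (hno g)
  choose h hh using hA
  obtain ⟨p, hp⟩ := exists_bound hν _ hfew
  have hpick : ∀ T : Set ν.ord.ToType, ∃ g, #T < ν → (∀ s ∈ T, s < g ∧ h s < g) ∧ p < g := by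
    intro T
    by_cases hT : #T < ν
    · have hcard : #(T ∪ h '' T ∪ {p} : Set ν.ord.ToType) < ν := by
        refine (mk_union_le _ _).trans_lt (add_lt_of_lt hν.aleph0_le ?_ ?_)
        · exact (mk_union_le _ _).trans_lt
            (add_lt_of_lt hν.aleph0_le hT (mk_image_le.trans_lt hT))
        · rw [mk_singleton]
          exact one_lt_aleph0.trans_le hν.aleph0_le
      obtain ⟨g, hg⟩ := exists_bound hν _ hcard
      exact ⟨g, fun _ => ⟨fun s hs => ⟨hg s (Or.inl (Or.inl hs)),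
        hg _ (Or.inl (Or.inr ⟨s, hs, rfl⟩))⟩, hg p (Or.inr rfl)⟩⟩
    · exact ⟨p, fun h => absurd h hT⟩
  choose pick hpk using hpick
  obtain ⟨c, hc⟩ := exists_rec (I := lam.ord.ToType) pick
  have hcard : ∀ a, #(c '' Iio a) < ν := fun a => mk_image_le.trans_lt ((mk_Iio_lt a).trans hlt)
  have hc1 : ∀ a b, b < a → c b < c a ∧ h (c b) < c a := by
    intro a b hba
    have h1 := (hpk _ (hcard a)).1 (c b) ⟨b, hba, rfl⟩
    rwa [← hc a] at h1
  have hc2 : ∀ a, p < c a := by
    intro a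
    have h1 := (hpk _ (hcard a)).2
    rwa [← hc a] at h1
  have hnomax : ∀ a : lam.ord.ToType, ∃ b, a < b := by
    intro a
    obtain ⟨b, hb⟩ := exists_bound hlam {a}
      (by rw [mk_singleton]; exact one_lt_aleph0.trans_le hlam.aleph0_le)
    exact ⟨b, hb a rfl⟩
  obtain ⟨a₀, -⟩ := exists_bound hlam (∅ : Set lam.ord.ToType)
    (by rw [mk_eq_zero]; exact aleph0_pos.trans_le hlam.aleph0_le)
  obtain ⟨m, hm⟩ := exists_bound hν (range c)
    (mk_range_le.trans_lt (by rw [mk_toType, card_ord]; exact hlt))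
  obtain ⟨i, hi, hmin⟩ := WellFounded.has_min (wellFounded_lt (α := ν.ord.ToType))
    {k | ∀ a, c a < k} ⟨m, fun a => hm _ ⟨a, rfl⟩⟩
  have hi' : ∀ a, c a < i := hi
  have hcof : ∀ j, j < i → ∃ a, j < c a := by
    intro j hj
    by_contra hno'
    push Not at hno'
    refine hmin j (fun a => ?_) hj
    obtain ⟨b, hb⟩ := hnomax a
    exact (hc1 b a hb).1.trans_le (hno' b)
  have hsmall : Small lam (x i) := by
    by_contra hs
    exact absurd (hp i hs) (not_lt.mpr ((hc2 a₀).trans (hi' a₀)).le)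
  obtain ⟨B, hB, hBo, hBx⟩ := hsmall
  have hcov : ∀ U : B, ∃ a, V i \ (U : Set K) ⊆ x '' Iio (c a) := by
    rintro ⟨U, hU⟩
    have hcomp : IsCompact (V i \ U) := ((hVc i).sdiff (hBo U hU)).isCompact
    have : Nonempty lam.ord.ToType := ⟨a₀⟩
    refine hcomp.elim_directed_cover (fun a => x '' Iio (c a)) (fun a => hop _) ?_ ?_
    · rintro y ⟨hyV, hyU⟩
      obtain ⟨j, hj, rfl⟩ := hV i hyV
      have hji : j ≠ i := by
        rintro rfl
        apply hyU
        have h1 : x j ∈ ⋂₀ B := by rw [hBx]; exact mem_singleton _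
        exact h1 U hU
      obtain ⟨a, ha⟩ := hcof j (lt_of_le_of_ne hj hji)
      exact mem_iUnion.mpr ⟨a, ⟨j, ha, rfl⟩⟩
    · intro a b
      rcases le_total a b with hab | hab
      · refine ⟨b, ?_, subset_rfl⟩
        rcases hab.eq_or_lt with rfl | hab
        · exact subset_rfl
        · exact image_mono (Iio_subset_Iio (hc1 b a hab).1.le)
      · refine ⟨a, subset_rfl, ?_⟩
        rcases hab.eq_or_lt with rfl | hab
        · exact subset_rfl
        · exact image_mono (Iio_subset_Iio (hc1 a b hab).1.le)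
  choose aU haU using hcov
  obtain ⟨b, hb⟩ := exists_bound hlam (range aU) (mk_range_le.trans_lt hB)
  have hlast : V i ⊆ insert (x i) (x '' Iio (c b)) := by
    intro y hy
    by_cases hyx : y = x i
    · rw [hyx]
      exact mem_insert _ _
    · have h1 : y ∉ ⋂₀ B := by
        rw [hBx]
        exact hyx
      rw [mem_sInter] at h1
      push Not at h1
      obtain ⟨U, hU, hyU⟩ := h1
      have h2 := haU ⟨U, hU⟩ ⟨hy, hyU⟩
      exact mem_insert_of_mem _ (image_mono
        (Iio_subset_Iio (hc1 b _ (hb _ ⟨⟨U, hU⟩, rfl⟩)).1.le) h2)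
  obtain ⟨b', hb'⟩ := hnomax b
  have h1 : i < h (c b) := hh (c b) i hlast
  exact absurd (h1.trans ((hc1 b' b hb').2.trans (hi' b'))) (lt_irrefl i)

/-- Scattered compact spaces with few points of large character: large discrete subsets. -/
theorem exists_discrete [CompactSpace K] [T2Space K] (hA : Scattered K)
    {lam ν : Cardinal.{u}} (hlam : lam.IsRegular) (hν : ν.IsRegular) (hlt : lam < ν)
    (hνK : ν ≤ #K) (hfew : #{x : K | ¬ Small lam x} < ν) :
    ∃ T : Set K, ν ≤ #T ∧ ∀ x ∈ T, ∃ V ∈ 𝓝 x, ∀ y ∈ T, y ∈ V → y = x := by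
  obtain ⟨x, hinj, hop, hop'⟩ := exists_enum hA hν.aleph0_le hνK
  have hV : ∀ i, ∃ V : Set K, V ∈ 𝓝 (x i) ∧ IsClosed V ∧ V ⊆ x '' Iic i := by
    intro i
    obtain ⟨V, h1, h2, h3⟩ := exists_mem_nhds_isClosed_subset
      ((hop' i).mem_nhds ⟨i, mem_Iic.mpr le_rfl, rfl⟩)
    exact ⟨V, h1, h2, h3⟩
  choose V hV1 hV2 hV3 using hV
  obtain ⟨g, hg⟩ := exists_level hlam hν hlt x hop V hV2 hV3
    ((mk_preimage_of_injective x _ hinj).trans_lt hfew)
  set T : Set ν.ord.ToType := {i | V i ⊆ insert (x i) (x '' Iio g) ∧ g < i} with hT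
  have hTc : ν ≤ #T := by
    by_contra hno
    push Not at hno
    have h1 : {i | V i ⊆ insert (x i) (x '' Iio g)} ⊆ T ∪ Iic g := by
      intro i hi
      rcases lt_or_ge g i with h | h
      · exact Or.inl ⟨hi, h⟩
      · exact Or.inr h
    have h2 : #(Iic g) < ν := by
      rw [← Iio_insert]
      refine (mk_insert_le).trans_lt (add_lt_of_lt hν.aleph0_le (mk_Iio_lt g) ?_)
      exact one_lt_aleph0.trans_le hν.aleph0_le
    have h3 := (mk_le_mk_of_subset h1).trans_lt
      ((mk_union_le _ _).trans_lt (add_lt_of_lt hν.aleph0_le hno h2))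
    exact absurd h3 (not_lt.mpr hg)
  have hdisc : ∀ i ∈ T, ∀ j ∈ T, i ≠ j → x j ∉ V i := by
    rintro i ⟨hi, -⟩ j ⟨-, hj⟩ hij hx
    rcases hi hx with h | ⟨k, hk, hkj⟩
    · exact hij (hinj h).symm
    · rw [hinj hkj] at hk
      exact absurd hj (not_lt.mpr (le_of_lt hk))
  refine ⟨x '' T, ?_, ?_⟩
  · rw [mk_image_eq hinj]
    exact hTc
  · rintro _ ⟨i, hi, rfl⟩
    refine ⟨V i, hV1 i, ?_⟩
    rintro _ ⟨j, hj, rfl⟩ hy
    by_contra hne
    exact hdisc i hi j hj (fun h => hne (by rw [h])) hy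

/-- Compact spaces with few points of large character: large biorthogonal systems. -/
theorem hasSystem_of_few [CompactSpace K] [T2Space K] (hA : LibH11.Renorm.IsAsplund C(K, ℝ))
    {lam ν : Cardinal.{u}} (hlam : lam.IsRegular) (hν : ν.IsRegular) (hlt : lam < ν)
    (hνK : ν ≤ #K) (hfew : #{x : K | ¬ Small lam x} < ν) :
    LibH11.Renorm.HasSystem C(K, ℝ) ν := by
  obtain ⟨T, hTc, hTd⟩ := exists_discrete (fun A hne => exists_isolated hA hne) hlam hν hlt hνK
    hfew
  choose V hV1 hV2 using fun x : T => hTd x x.2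
  have hf : ∀ x : T, ∃ f : C(K, ℝ), ‖f‖ ≤ 1 ∧ f x = 1 ∧ ∀ y, y ∉ V x → f y = 0 := by
    intro x
    obtain ⟨f, hf0, hf1, hf⟩ := exists_continuous_zero_one_of_isClosed
      (isOpen_interior (s := V x)).isClosed_compl (isClosed_singleton (x := (x : K)))
      (by
        rw [disjoint_singleton_right, mem_compl_iff, not_not]
        exact mem_interior_iff_mem_nhds.mpr (hV1 x))
    refine ⟨f, ?_, hf1 rfl, fun y hy => hf0 fun h => hy (interior_subset h)⟩
    rw [ContinuousMap.norm_le _ zero_le_one]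
    intro y
    rw [Real.norm_eq_abs, abs_le]
    exact ⟨by linarith [(hf y).1], (hf y).2⟩
  choose f hf1 hf2 hf3 using hf
  let G : T → C(K, ℝ) × (C(K, ℝ) →L[ℝ] ℝ) := fun x => (f x, ContinuousMap.evalCLM ℝ (x : K))
  have hG : ∀ i j : T, (G j).2 (G i).1 = f i j := fun i j => rfl
  have hGne : ∀ i j : T, i ≠ j → (G j).2 (G i).1 = 0 := by
    intro i j hij
    rw [hG]
    exact hf3 _ _ fun h => hij (Subtype.ext (hV2 i j j.2 h).symm)
  refine ⟨range G, 1, 1, ?_, one_pos, ?_, ?_⟩
  · rw [mk_range_eq]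
    · exact hTc
    · intro i j hij
      by_contra hne
      have h1 := hGne i j hne
      rw [← hij, hG, hf2] at h1
      exact one_ne_zero h1
  · rintro _ ⟨i, rfl⟩
    refine ⟨hf1 _, ?_, hf2 _⟩
    refine ContinuousLinearMap.opNorm_le_bound _ zero_le_one fun k => ?_
    rw [one_mul]
    exact k.norm_coe_le_norm (i : K)
  · rintro _ ⟨i, rfl⟩ _ ⟨j, rfl⟩ hne
    rw [hGne i j fun h => hne (by rw [h])]
    simp

/-- The density of `C(K)` is at most the cardinality of `K`. -/
theorem exists_dense_card [CompactSpace K] [T2Space K] (hinf : ℵ₀ ≤ #K) :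
    ∃ D : Set C(K, ℝ), Dense D ∧ #D ≤ #K := by
  have hsep : ∀ p : K × K, ∃ f : C(K, ℝ), p.1 ≠ p.2 → f p.1 ≠ f p.2 := by
    rintro ⟨a, b⟩
    by_cases hab : a = b
    · exact ⟨0, fun h => absurd hab h⟩
    · obtain ⟨f, hf0, hf1, -⟩ := exists_continuous_zero_one_of_isClosed
        (isClosed_singleton (x := a)) (isClosed_singleton (x := b))
        (by rw [disjoint_singleton]; exact hab)
      refine ⟨f, fun _ => ?_⟩
      rw [hf0 (mem_singleton a), hf1 (mem_singleton b)]
      simp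
  choose F hF using hsep
  set Z : Set C(K, ℝ) := range fun l : List (K × K) => (l.map F).prod with hZ
  have hZc : #Z ≤ #K := by
    refine mk_range_le.trans ((mk_list_le_max _).trans (max_le hinf ?_))
    rw [mk_prod]
    simp only [lift_id]
    exact (mul_eq_self hinf).le
  obtain ⟨D, hD1, hD2⟩ := LibH11.Renorm.exists_dense_span Z
  refine ⟨D, ?_, hD1.trans (max_le hZc hinf)⟩
  have hlist : ∀ l : List C(K, ℝ), (∀ y ∈ l, y ∈ range F) → ∃ l' : List (K × K),
      l'.map F = l := by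
    intro l
    induction l with
    | nil => exact fun _ => ⟨[], rfl⟩
    | cons y l ih =>
      intro hy
      obtain ⟨q, hq⟩ := hy y List.mem_cons_self
      obtain ⟨l', hl'⟩ := ih fun z hz => hy z (List.mem_cons_of_mem _ hz)
      exact ⟨q :: l', by rw [List.map_cons, hq, hl']⟩
  have hcl : (Submonoid.closure (range F) : Set C(K, ℝ)) ⊆ Z := by
    intro y hy
    obtain ⟨l, hl, rfl⟩ := Submonoid.exists_list_of_mem_closure hy
    obtain ⟨l', rfl⟩ := hlist l hl
    exact ⟨l', rfl⟩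
  have hspan : (Algebra.adjoin ℝ (range F) : Set C(K, ℝ)) ⊆ closure D := by
    intro y hy
    have h1 : y ∈ Submodule.span ℝ (Submonoid.closure (range F) : Set C(K, ℝ)) := by
      rw [← Algebra.adjoin_eq_span]
      exact hy
    exact hD2 (Submodule.span_mono hcl h1)
  have htop := ContinuousMap.subalgebra_topologicalClosure_eq_top_of_separatesPoints
    (Algebra.adjoin ℝ (range F)) (by
      intro a b hab
      exact ⟨F (a, b), ⟨F (a, b), Algebra.subset_adjoin ⟨(a, b), rfl⟩, rfl⟩, hF (a, b) hab⟩)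
  intro y
  have h1 : y ∈ (Algebra.adjoin ℝ (range F)).topologicalClosure := by
    rw [htop]
    exact Algebra.mem_top
  exact closure_minimal hspan isClosed_closure h1

theorem exists_regular {κ lam ε μ : Cardinal.{u}} (hlam : lam.IsRegular) (hlt : lam < κ)
    (hε : ε < κ) (hμ : μ.IsRegular) (hμκ : μ ≤ κ) :
    ∃ ν : Cardinal.{u}, ν.IsRegular ∧ μ ≤ ν ∧ lam < ν ∧ ε < ν ∧ ν ≤ κ := by
  by_cases hK : κ.IsRegular
  · exact ⟨κ, hK, hμκ, hlt, hε, le_rfl⟩
  · have hμK' : μ < κ := lt_of_le_of_ne hμκ fun h => hK (h ▸ hμ)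
    refine ⟨Order.succ (max μ (max lam ε)),
      isRegular_succ (hμ.aleph0_le.trans (le_max_left _ _)),
      (le_max_left _ _).trans (Order.le_succ _), ?_, ?_, ?_⟩
    · exact Order.lt_succ_of_le ((le_max_left _ _).trans (le_max_right _ _))
    · exact Order.lt_succ_of_le ((le_max_right _ _).trans (le_max_right _ _))
    · exact Order.succ_le_of_lt (max_lt hμK' (max_lt hlt hε))

/-- Compact spaces with few points of large character: the renorming. -/
theorem exists_norm_of_few [CompactSpace K] [T2Space K] (hA : LibH11.Renorm.IsAsplund C(K, ℝ))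
    {lam : Cardinal.{u}} (hlam : lam.IsRegular) (hlt : lam < #K)
    (hfew : #{x : K | ¬ Small lam x} < #K) :
    ∃ N : C(K, ℝ) → ℝ, LibH11.Renorm.EquivNorm N ∧ LibH11.Renorm.NoProperNorming N := by
  have hinf : ℵ₀ < #K := hlam.aleph0_le.trans_lt hlt
  -- systems of all regular sizes
  have hsys : ∀ μ : Cardinal.{u}, μ.IsRegular → μ ≤ #K → LibH11.Renorm.HasSystem C(K, ℝ) μ := by
    intro μ hμ hμK
    obtain ⟨ν, hν, hμν, h2, h3, h4⟩ := exists_regular hlam hlt hfew hμ hμK
    obtain ⟨S, C, δ, hS, hδ, h5, h6⟩ := hasSystem_of_few hA hlam hν h2 h4 h3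
    exact ⟨S, C, δ, hμν.trans hS, hδ, h5, h6⟩
  -- the density
  obtain ⟨D₀, hD₀, hD₀c⟩ := exists_dense_card hinf.le
  obtain ⟨κ, ⟨D, hD, hDκ⟩, hmin⟩ := WellFounded.has_min (Cardinal.lt_wf)
    {κ : Cardinal.{u} | ∃ D : Set C(K, ℝ), Dense D ∧ #D = κ} ⟨_, D₀, hD₀, rfl⟩
  have hκK : κ ≤ #K := by
    by_contra hno
    push Not at hno
    exact hmin _ ⟨D₀, hD₀, rfl⟩ (hD₀c.trans_lt hno)
  have hκ : ℵ₀ < κ := by
    by_contra hle
    push Not at hle
    have hsep : SeparableSpace C(K, ℝ) := by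
      refine ⟨D, ?_, hD⟩
      rw [← le_aleph0_iff_set_countable, hDκ]
      exact hle
    obtain ⟨S, C, δ, hS, hδ, h5, h6⟩ := hsys ℵ₁ isRegular_aleph_one
      (by rw [← succ_aleph0]; exact Order.succ_le_of_lt hinf)
    have hC : 0 < C := by
      have hne : S.Nonempty := by
        rw [nonempty_iff_ne_empty]
        rintro rfl
        rw [mk_eq_zero] at hS
        exact absurd hS (not_le.mpr (aleph0_pos.trans aleph0_lt_aleph_one))
      obtain ⟨p, hp⟩ := hne
      obtain ⟨h7, h8, h9⟩ := h5 p hp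
      have h10 := p.2.le_opNorm p.1
      rw [h9, norm_one] at h10
      have h11 : ‖p.2‖ * ‖p.1‖ ≤ C * C := mul_le_mul h8 h7 (norm_nonneg _)
        ((norm_nonneg _).trans h8)
      by_contra hC
      push Not at hC
      have h12 : C = 0 := le_antisymm hC ((norm_nonneg _).trans h7)
      rw [h12] at h11
      linarith
    have hcount : Countable S := by
      refine Pairwise.countable_of_isOpen_disjoint
        (s := fun p : S => Metric.ball p.1.1 (δ / (2 * C))) ?_ (fun p => Metric.isOpen_ball)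
        (fun p => ⟨_, Metric.mem_ball_self (by positivity)⟩)
      intro p q hpq
      apply Metric.ball_disjoint_ball
      have h7 := h6 p p.2 q q.2 fun h => hpq (Subtype.ext h)
      have h8 := (h5 q q.2).2.2
      have h9 : δ ≤ |q.1.2 (q.1.1 - p.1.1)| := by
        rw [map_sub, h8]
        have := le_abs_self (q.1.2 p.1.1)
        exact (by linarith : δ ≤ 1 - q.1.2 p.1.1).trans (le_abs_self _)
      have h10 : |q.1.2 (q.1.1 - p.1.1)| ≤ C * ‖q.1.1 - p.1.1‖ :=
        (q.1.2.le_opNorm _).trans (mul_le_mul_of_nonneg_right (h5 q q.2).2.1 (norm_nonneg _))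
      have h11 : δ / (2 * C) + δ / (2 * C) = δ / C := by
        field_simp
        ring
      rw [h11, dist_comm, dist_eq_norm, div_le_iff₀ hC, mul_comm]
      exact h9.trans h10
    have h7 : #S ≤ ℵ₀ := mk_le_aleph0
    exact absurd (hS.trans h7) (not_le.mpr aleph0_lt_aleph_one)
  exact LibH11.Renorm.exists_norm_of_hasSystem hA hκ hD hDκ
    fun ν hν _ hνκ => hsys ν hν (hνκ.trans hκK)

end Pool.Agent.Lib_helper44.Asp.Char
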