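import Mathlib

/-!
# Choquet's lemma for the dual unit ball

Weak-star slices form a neighbourhood base at the extreme points of the dual unit ball.
-/

set_option autoImplicit false

open Set Filter Topology

universe u

namespace Pool.Agent.Lib_helper44.Asp

variable {X : Type u} [NormedAddCommGroup X] [NormedSpace ℝ X]

/-- two compact convex sets which miss an extreme point lie in one -/
lemma exists_join {E : Type*} [AddCommGroup E] [Module ℝ E] [TopologicalSpace E]
    [IsTopologicalAddGroup E] [ContinuousSMul ℝ E] {K A C : Set E} (hK : Convex ℝ K)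
    {f : E} (hf : f ∈ extremePoints ℝ K)
    (hA : IsCompact A) (hAc : Convex ℝ A) (hAK : A ⊆ K) (hfA : f ∉ A)
    (hC : IsCompact C) (hCc : Convex ℝ C) (hCK : C ⊆ K) (hfC : f ∉ C) :
    ∃ D : Set E, IsCompact D ∧ Convex ℝ D ∧ D ⊆ K ∧ f ∉ D ∧ A ⊆ D ∧ C ⊆ D := by
  rcases A.eq_empty_or_nonempty with rfl | hAne
  · exact ⟨C, hC, hCc, hCK, hfC, empty_subset _, subset_rfl⟩
  rcases C.eq_empty_or_nonempty with rfl | hCne
  · exact ⟨A, hA, hAc, hAK, hfA, subset_rfl, empty_subset _⟩
  refine ⟨convexJoin ℝ A C, ?_, hAc.convexJoin hCc, ?_, ?_, subset_convexJoin_left hCne,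
    subset_convexJoin_right hAne⟩
  · have himg : convexJoin ℝ A C = (fun p : (E × E) × ℝ => (1 - p.2) • p.1.1 + p.2 • p.1.2) ''
        ((A ×ˢ C) ×ˢ Icc (0 : ℝ) 1) := by
      ext y
      rw [mem_convexJoin, mem_image]
      constructor
      · rintro ⟨a, ha, c, hc, s, t, hs, ht, hst, rfl⟩
        refine ⟨((a, c), t), ⟨⟨ha, hc⟩, ⟨ht, by linarith⟩⟩, ?_⟩
        simp only
        rw [show 1 - t = s by linarith]
      · rintro ⟨⟨⟨a, c⟩, t⟩, ⟨⟨ha, hc⟩, ht⟩, rfl⟩
        exact ⟨a, ha, c, hc, 1 - t, t, by linarith [ht.2], ht.1, by ring, rfl⟩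
    rw [himg]
    refine ((hA.prod hC).prod isCompact_Icc).image ?_
    fun_prop
  · intro y hy
    obtain ⟨a, ha, c, hc, hy⟩ := mem_convexJoin.1 hy
    exact hK.segment_subset (hAK ha) (hCK hc) hy
  · intro hy
    obtain ⟨a, ha, c, hc, hy⟩ := mem_convexJoin.1 hy
    rw [mem_extremePoints_iff_forall_segment] at hf
    rcases hf.2 a (hAK ha) c (hCK hc) hy with h | h
    · exact hfA (h ▸ ha)
    · exact hfC (h ▸ hc)

/-- **Choquet's lemma** for the dual unit ball. -/
theorem exists_slice_of_extreme {f : X →L[ℝ] ℝ}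
    (hf : f ∈ extremePoints ℝ (Metric.closedBall (0 : X →L[ℝ] ℝ) 1)) (s : Finset X) {δ : ℝ}
    (hδ : 0 < δ) :
    ∃ (x : X) (a : ℝ), a < f x ∧
      ∀ g : X →L[ℝ] ℝ, ‖g‖ ≤ 1 → a < g x → ∀ y ∈ s, |g y - f y| < δ := by
  classical
  set K : Set (WeakDual ℝ X) := WeakDual.toStrongDual ⁻¹' Metric.closedBall (0 : StrongDual ℝ X) 1
    with hK
  have hmem : ∀ g : WeakDual ℝ X, g ∈ K ↔ ‖WeakDual.toStrongDual g‖ ≤ 1 := by
    intro g
    rw [hK, mem_preimage, mem_closedBall_zero_iff]
  have hKc : IsCompact K := WeakDual.isCompact_closedBall _ _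
  have hKconv : Convex ℝ K := by
    intro a ha b hb p q hp hq hpq
    rw [hmem] at ha hb ⊢
    rw [map_add, map_smul, map_smul]
    calc ‖p • WeakDual.toStrongDual a + q • WeakDual.toStrongDual b‖
        ≤ ‖p • WeakDual.toStrongDual a‖ + ‖q • WeakDual.toStrongDual b‖ := norm_add_le _ _
      _ = p * ‖WeakDual.toStrongDual a‖ + q * ‖WeakDual.toStrongDual b‖ := by
          rw [norm_smul, norm_smul, Real.norm_of_nonneg hp, Real.norm_of_nonneg hq]
      _ ≤ p * 1 + q * 1 := add_le_add (mul_le_mul_of_nonneg_left ha hp)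
          (mul_le_mul_of_nonneg_left hb hq)
      _ = 1 := by rw [mul_one, mul_one, hpq]
  set φ : WeakDual ℝ X := StrongDual.toWeakDual f with hφ
  have hφE : φ ∈ extremePoints ℝ K := by
    rw [mem_extremePoints] at hf ⊢
    refine ⟨(hmem _).2 (mem_closedBall_zero_iff.1 hf.1), ?_⟩
    intro a ha b hb hab
    have h := hf.2 (WeakDual.toStrongDual a) (by simpa using (hmem a).1 ha)
      (WeakDual.toStrongDual b) (by simpa using (hmem b).1 hb) (by
        obtain ⟨p, q, hp, hq, hpq, h⟩ := hab
        refine ⟨p, q, hp, hq, hpq, ?_⟩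
        have := congrArg WeakDual.toStrongDual h
        rw [map_add, map_smul, map_smul] at this
        exact this)
    refine ⟨?_, ?_⟩
    · exact WeakDual.toStrongDual.injective h.1
    · exact WeakDual.toStrongDual.injective h.2
  have key : ∃ D : Set (WeakDual ℝ X), IsCompact D ∧ Convex ℝ D ∧ D ⊆ K ∧ φ ∉ D ∧
      ∀ g ∈ K, (∃ y ∈ s, δ ≤ |g y - f y|) → g ∈ D := by
    induction s using Finset.induction_on with
    | empty => exact ⟨∅, isCompact_empty, convex_empty, empty_subset _, notMem_empty _,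
        fun g _ ⟨y, hy, _⟩ => absurd hy (Finset.notMem_empty _)⟩
    | insert y s _ ih =>
      obtain ⟨D, hD1, hD2, hD3, hD4, hD5⟩ := ih
      have hC : ∀ c : ℝ, IsCompact (K ∩ {g : WeakDual ℝ X | c ≤ g y}) ∧
          Convex ℝ (K ∩ {g : WeakDual ℝ X | c ≤ g y}) := by
        intro c
        refine ⟨hKc.inter_right (isClosed_le continuous_const (WeakDual.eval_continuous _)),
          hKconv.inter ?_⟩
        intro a ha b hb p q hp hq hpq
        show c ≤ (p • a + q • b) y
        have e : (p • a + q • b) y = p * a y + q * b y := rfl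
        rw [e]
        have ha' : c ≤ a y := ha
        have hb' : c ≤ b y := hb
        have h1 := mul_le_mul_of_nonneg_left ha' hp
        have h2 := mul_le_mul_of_nonneg_left hb' hq
        have h3 : p * c + q * c = c := by rw [← add_mul, hpq, one_mul]
        linarith
      have hC' : ∀ c : ℝ, IsCompact (K ∩ {g : WeakDual ℝ X | g y ≤ c}) ∧
          Convex ℝ (K ∩ {g : WeakDual ℝ X | g y ≤ c}) := by
        intro c
        refine ⟨hKc.inter_right (isClosed_le (WeakDual.eval_continuous _) continuous_const),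
          hKconv.inter ?_⟩
        intro a ha b hb p q hp hq hpq
        show (p • a + q • b) y ≤ c
        have e : (p • a + q • b) y = p * a y + q * b y := rfl
        rw [e]
        have ha' : a y ≤ c := ha
        have hb' : b y ≤ c := hb
        have h1 := mul_le_mul_of_nonneg_left ha' hp
        have h2 := mul_le_mul_of_nonneg_left hb' hq
        have h3 : p * c + q * c = c := by rw [← add_mul, hpq, one_mul]
        linarith
      obtain ⟨D1, h11, h12, h13, h14, h15, h16⟩ := exists_join hKconv hφE hD1 hD2 hD3 hD4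
        (hC (f y + δ)).1 (hC (f y + δ)).2 inter_subset_left (fun h => by
          have h1 : f y + δ ≤ f y := h.2
          linarith)
      obtain ⟨D2, h21, h22, h23, h24, h25, h26⟩ := exists_join hKconv hφE h11 h12 h13 h14
        (hC' (f y - δ)).1 (hC' (f y - δ)).2 inter_subset_left (fun h => by
          have h1 : f y ≤ f y - δ := h.2
          linarith)
      refine ⟨D2, h21, h22, h23, h24, ?_⟩
      rintro g hg ⟨y', hy', hgy⟩
      rw [Finset.mem_insert] at hy'
      rcases hy' with rfl | hy'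
      · rcases le_abs.1 hgy with h | h
        · exact h25 (h16 ⟨hg, by show f y' + δ ≤ g y'; linarith⟩)
        · exact h26 ⟨hg, by show g y' ≤ f y' - δ; linarith⟩
      · exact h25 (h15 (hD5 g hg ⟨y', hy', hgy⟩))
  obtain ⟨D, hD1, hD2, hD3, hD4, hD5⟩ := key
  have : LocallyConvexSpace ℝ (WeakDual ℝ X) :=
    inferInstanceAs (LocallyConvexSpace ℝ (WeakBilin (topDualPairing ℝ X)))
  obtain ⟨Ψ, a, hΨ1, hΨ2⟩ := geometric_hahn_banach_closed_point hD2 hD1.isClosed hD4
  obtain ⟨x, hx⟩ := LinearMap.dualEmbedding_surjective (topDualPairing ℝ X) Ψ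
  have hx' : ∀ g : WeakDual ℝ X, Ψ g = g x := by
    intro g
    rw [← hx]
    rfl
  refine ⟨x, a, ?_, ?_⟩
  · have := hΨ2
    rw [hx'] at this
    exact this
  · intro g hg hgx y hy
    by_contra hlt
    push Not at hlt
    have h1 := hΨ1 (StrongDual.toWeakDual g)
      (hD5 _ ((hmem _).2 hg) ⟨y, hy, hlt⟩)
    rw [hx'] at h1
    have h2 : g x < a := h1
    linarith

end Pool.Agent.Lib_helper44.Asp
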