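import Pool.Agent.Lib_helper44.Asp.Stegall
import Pool.Agent.Lib_helper44.Asp.Choquet
import Pool.Agent.LibH11.Renorm.Glue

/-!
# Dominated systems from a covering of the extreme points by few locally small pieces
-/

set_option autoImplicit false

open Set Filter Topology TopologicalSpace Cardinal

universe u

namespace Pool.Agent.Lib_helper44.Asp

open Pool.Agent.LibH11.Renorm

variable {X : Type u} [NormedAddCommGroup X] [NormedSpace ℝ X]

/-- one-sided dominated systems give two-sided ones -/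
theorem hasSystem_of_oneSided {ν : Cardinal.{u}} (hν : ℵ₀ < ν) (hreg : ν.IsRegular) {I : Type u}
    (hI : ν ≤ #I) (x : I → X) (f : I → X →L[ℝ] ℝ) (α : I → ℝ) (hx : ∀ i, ‖x i‖ ≤ 1)
    (hf : ∀ i, ‖f i‖ ≤ 1) (hα : ∀ i, α i < f i (x i)) (hij : ∀ i j, i ≠ j → f j (x i) ≤ α i) :
    HasSystem X ν := by
  classical
  -- a unit vector with a norming functional
  obtain ⟨e, h, he, hh, hhe⟩ : ∃ (e : X) (h : X →L[ℝ] ℝ), ‖e‖ ≤ 1 ∧ ‖h‖ ≤ 1 ∧ h e = 1 := by
    have hinf : Infinite I := by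
      rw [← aleph0_le_mk_iff]
      exact hν.le.trans hI
    obtain ⟨i⟩ : Nonempty I := inferInstance
    obtain ⟨j, hj⟩ := exists_ne i
    have hne : x i ≠ 0 := by
      intro h0
      have h1 := hij i j hj.symm
      have h2 := hα i
      rw [h0, map_zero] at h1 h2
      linarith
    obtain ⟨g, hg1, hg2⟩ := exists_dual_vector ℝ (x i) (norm_ne_zero_iff.mpr hne)
    have hpos : 0 < ‖x i‖ := norm_pos_iff.mpr hne
    refine ⟨(‖x i‖)⁻¹ • x i, g, ?_, hg1.le, ?_⟩
    · rw [norm_smul, norm_inv, norm_norm, inv_mul_cancel₀ hpos.ne']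
    · rw [map_smul, hg2, smul_eq_mul]
      exact inv_mul_cancel₀ hpos.ne'
  choose m hm using fun i : I => exists_nat_one_div_lt (sub_pos.mpr (hα i))
  obtain ⟨c, hc⟩ := infinite_pigeonhole_card
    (fun i : I => (ULift.up (m i, ⌊f i e * (2 * ((m i : ℝ) + 1))⌋) : ULift.{u} (ℕ × ℤ))) ν hI
    hν.le (by
      rw [hreg.cof_ord]
      have : #(ULift.{u} (ℕ × ℤ)) ≤ ℵ₀ := mk_le_aleph0
      exact this.trans_lt hν)
  set T : Set I := (fun i : I =>
    (ULift.up (m i, ⌊f i e * (2 * ((m i : ℝ) + 1))⌋) : ULift.{u} (ℕ × ℤ))) ⁻¹' {c} with hT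
  set k : ℕ := c.down.1 with hk
  have hmT : ∀ i ∈ T, m i = k := by
    intro i hi
    have h1 : (ULift.up (m i, ⌊f i e * (2 * ((m i : ℝ) + 1))⌋) : ULift.{u} (ℕ × ℤ)) = c := hi
    rw [hk, ← h1]
  have hfT : ∀ i ∈ T, ⌊f i e * (2 * ((k : ℝ) + 1))⌋ = c.down.2 := by
    intro i hi
    have h1 : (ULift.up (m i, ⌊f i e * (2 * ((m i : ℝ) + 1))⌋) : ULift.{u} (ℕ × ℤ)) = c := hi
    rw [← hmT i hi, ← h1]
  set γ : ℝ := 1 / ((k : ℝ) + 1) with hγ
  have hk1 : (0 : ℝ) < (k : ℝ) + 1 := by positivity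
  have hγ0 : 0 < γ := by positivity
  have hgap : ∀ i ∈ T, ∀ j, i ≠ j → γ < f i (x i) - f j (x i) := by
    intro i hi j hj
    have h1 := hm i
    rw [hmT i hi] at h1
    have h2 := hij i j hj
    linarith
  have hclose : ∀ i ∈ T, ∀ j ∈ T, |f i e - f j e| ≤ γ / 2 := by
    intro i hi j hj
    have h1 := hfT i hi
    have h2 := hfT j hj
    have h3 := Int.floor_le (f i e * (2 * ((k : ℝ) + 1)))
    have h4 := Int.lt_floor_add_one (f i e * (2 * ((k : ℝ) + 1)))
    have h5 := Int.floor_le (f j e * (2 * ((k : ℝ) + 1)))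
    have h6 := Int.lt_floor_add_one (f j e * (2 * ((k : ℝ) + 1)))
    rw [h1] at h3 h4
    rw [h2] at h5 h6
    have h7 : |(f i e - f j e) * (2 * ((k : ℝ) + 1))| ≤ 1 := by
      rw [sub_mul, abs_le]
      constructor <;> linarith
    rw [abs_mul, abs_of_pos (by positivity : (0 : ℝ) < 2 * ((k : ℝ) + 1))] at h7
    have h8 : γ / 2 = 1 / (2 * ((k : ℝ) + 1)) := by
      rw [hγ]; field_simp
    rw [h8, le_div_iff₀ (by positivity)]
    exact h7
  -- the new system
  set x' : I → X := fun i => x i - (h (x i)) • e + e with hx'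
  set f' : I → X →L[ℝ] ℝ := fun i => f i - (f i e) • h + (4 : ℝ) • h with hf'
  have hhx' : ∀ i, h (x' i) = 1 := by
    intro i
    simp only [hx', map_add, map_sub, map_smul, smul_eq_mul, hhe]
    ring
  have hval : ∀ i j, f' j (x' i) = f j (x i) - h (x i) * f j e + 4 := by
    intro i j
    have h1 : f' j (x' i) = f j (x' i) - f j e * h (x' i) + 4 * h (x' i) := by
      simp only [hf', add_apply, sub_apply, smul_apply, smul_eq_mul]
    rw [h1, hhx']
    simp only [hx', map_add, map_sub, map_smul, smul_eq_mul]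
    ring
  have hhx : ∀ i, |h (x i)| ≤ 1 := fun i => (abs_apply_le hh _).trans (hx i)
  have hfe : ∀ i, |f i e| ≤ 1 := fun i => (abs_apply_le (hf i) _).trans he
  have hfx : ∀ i j, |f j (x i)| ≤ 1 := fun i j => (abs_apply_le (hf j) _).trans (hx i)
  have hprod : ∀ i j, |h (x i) * f j e| ≤ 1 := by
    intro i j
    rw [abs_mul]
    calc |h (x i)| * |f j e| ≤ 1 * 1 := mul_le_mul (hhx i) (hfe j) (abs_nonneg _) zero_le_one
      _ = 1 := one_mul 1
  have hlow : ∀ i j, 2 ≤ f' j (x' i) := by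
    intro i j
    rw [hval]
    have h1 := (abs_le.mp (hfx i j)).1
    have h2 := (abs_le.mp (hprod i j)).2
    linarith
  have hup : ∀ i j, f' j (x' i) ≤ 6 := by
    intro i j
    rw [hval]
    have h1 := (abs_le.mp (hfx i j)).2
    have h2 := (abs_le.mp (hprod i j)).1
    linarith
  have hdom : ∀ i ∈ T, ∀ j ∈ T, i ≠ j → f' j (x' i) ≤ f' i (x' i) - γ / 2 := by
    intro i hi j hj hne
    rw [hval, hval]
    have h1 := hgap i hi j hne
    have h2 : |h (x i) * (f i e - f j e)| ≤ γ / 2 := by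
      rw [abs_mul]
      calc |h (x i)| * |f i e - f j e| ≤ 1 * (γ / 2) :=
            mul_le_mul (hhx i) (hclose i hi j hj) (abs_nonneg _) zero_le_one
        _ = γ / 2 := one_mul _
    have h3 := (abs_le.mp h2).2
    have h4 : h (x i) * (f i e - f j e) = h (x i) * f i e - h (x i) * f j e := by ring
    rw [h4] at h3
    linarith
  refine ⟨(fun i : I => ((f' i (x' i))⁻¹ • x' i, f' i)) '' T, 6, γ / 12, ?_, by positivity, ?_, ?_⟩
  · rw [mk_image_eq_of_injOn]
    · exact hc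
    · intro i hi j hj hEq
      by_contra hne
      have h1 : f' i = f' j := (Prod.ext_iff.mp hEq).2
      have h2 := hdom i hi j hj hne
      rw [← h1] at h2
      linarith
  · rintro _ ⟨i, hi, rfl⟩
    have hpos : 0 < f' i (x' i) := by linarith [hlow i i]
    refine ⟨?_, ?_, ?_⟩
    · simp only
      rw [norm_smul, norm_inv, Real.norm_of_nonneg hpos.le, inv_mul_le_iff₀ hpos]
      have h1 : ‖x' i‖ ≤ 3 := by
        calc ‖x i - (h (x i)) • e + e‖ ≤ ‖x i - (h (x i)) • e‖ + ‖e‖ := norm_add_le _ _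
          _ ≤ ‖x i‖ + ‖(h (x i)) • e‖ + ‖e‖ := by gcongr; exact norm_sub_le _ _
          _ ≤ 1 + 1 + 1 := by
              have : ‖(h (x i)) • e‖ ≤ 1 := by
                rw [norm_smul, Real.norm_eq_abs]
                calc |h (x i)| * ‖e‖ ≤ 1 * 1 := mul_le_mul (hhx i) he (norm_nonneg _) zero_le_one
                  _ = 1 := one_mul 1
              exact add_le_add (add_le_add (hx i) this) he
          _ = 3 := by norm_num
      have h2 := hlow i i
      linarith
    · simp only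
      calc ‖f i - (f i e) • h + (4 : ℝ) • h‖ ≤ ‖f i - (f i e) • h‖ + ‖(4 : ℝ) • h‖ :=
            norm_add_le _ _
        _ ≤ ‖f i‖ + ‖(f i e) • h‖ + ‖(4 : ℝ) • h‖ := by gcongr; exact norm_sub_le _ _
        _ ≤ 1 + 1 + 4 := by
            have h1 : ‖(f i e) • h‖ ≤ 1 := by
              rw [norm_smul, Real.norm_eq_abs]
              calc |f i e| * ‖h‖ ≤ 1 * 1 := mul_le_mul (hfe i) hh (norm_nonneg _) zero_le_one
                _ = 1 := one_mul 1
            have h2 : ‖(4 : ℝ) • h‖ ≤ 4 := by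
              rw [norm_smul, Real.norm_of_nonneg (by norm_num)]
              linarith [hh]
            exact add_le_add (add_le_add (hf i) h1) h2
        _ = 6 := by norm_num
    · simp only [map_smul, smul_eq_mul]
      exact inv_mul_cancel₀ hpos.ne'
  · rintro _ ⟨i, hi, rfl⟩ _ ⟨j, hj, rfl⟩ hne
    have hij' : i ≠ j := fun h => hne (by rw [h])
    have hpos : 0 < f' i (x' i) := by linarith [hlow i i]
    have hposj : 0 < f' j (x' i) := by linarith [hlow i j]
    simp only [map_smul, smul_eq_mul]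
    rw [abs_of_pos (mul_pos (inv_pos.mpr hpos) hposj), inv_mul_le_iff₀ hpos]
    have h1 := hdom i hi j hj hij'
    have h2 := hup i i
    nlinarith

/-- maximal separated sets -/
lemma exists_separated {V : Type*} [NormedAddCommGroup V] (E : Set V) {ε : ℝ} (hε : 0 < ε) :
    ∃ A ⊆ E, (∀ a ∈ A, ∀ b ∈ A, a ≠ b → ε < ‖a - b‖) ∧ ∀ g ∈ E, ∃ a ∈ A, ‖g - a‖ ≤ ε := by
  set P : Set (Set V) := {A | A ⊆ E ∧ ∀ a ∈ A, ∀ b ∈ A, a ≠ b → ε < ‖a - b‖} with hP
  obtain ⟨A, hA⟩ : ∃ A, Maximal (· ∈ P) A := by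
    refine zorn_subset P ?_
    intro ch hch hchain
    refine ⟨⋃₀ ch, ⟨?_, ?_⟩, fun s hs => subset_sUnion_of_mem hs⟩
    · exact sUnion_subset fun s hs => (hch hs).1
    · rintro p ⟨s, hs, hps⟩ q ⟨t, ht, hqt⟩ hpq
      rcases hchain.total hs ht with h | h
      · exact (hch ht).2 p (h hps) q hqt hpq
      · exact (hch hs).2 p hps q (h hqt) hpq
  refine ⟨A, hA.prop.1, hA.prop.2, ?_⟩
  intro g hg
  by_contra hno
  push Not at hno
  have hgA : g ∉ A := by
    intro h
    have := hno g h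
    rw [sub_self, norm_zero] at this
    linarith
  have hmem : insert g A ∈ P := by
    refine ⟨insert_subset hg hA.prop.1, ?_⟩
    rintro a (rfl | ha) b (rfl | hb) hab
    · exact absurd rfl hab
    · exact hno b hb
    · rw [norm_sub_rev]
      exact hno a ha
    · exact hA.prop.2 a ha b hb hab
  exact hgA (hA.le_of_ge hmem (subset_insert _ _) (mem_insert _ _))

/-- The extreme points of the dual unit ball can be covered, for every `ε`, by at most `μ` sets
which are locally of size at most `ε`. -/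
def Covered (X : Type u) [NormedAddCommGroup X] [NormedSpace ℝ X] (μ : Cardinal.{u}) : Prop :=
  ∀ ε : ℝ, 0 < ε → ∃ 𝒜 : Set (Set (X →L[ℝ] ℝ)), #𝒜 ≤ μ ∧
    (∀ f ∈ extremePoints ℝ (Metric.closedBall (0 : X →L[ℝ] ℝ) 1), ∃ A ∈ 𝒜, f ∈ A) ∧
    ∀ A ∈ 𝒜, ∀ f ∈ A, ∃ (s : Finset X) (δ : ℝ), 0 < δ ∧
      ∀ g ∈ A, (∀ y ∈ s, |g y - f y| < δ) → ‖g - f‖ ≤ ε

theorem hasSystem_of_covered [CompleteSpace X] (hX : IsAsplund X) {μ ν : Cardinal.{u}}
    (hμ : μ < ν) (hν : ℵ₀ < ν) (hreg : ν.IsRegular) (hdens : ∀ D : Set X, Dense D → ν ≤ #D)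
    (hcov : Covered X μ) : HasSystem X ν := by
  classical
  set E : Set (X →L[ℝ] ℝ) := extremePoints ℝ (Metric.closedBall (0 : X →L[ℝ] ℝ) 1) with hE
  have hE1 : ∀ f ∈ E, ‖f‖ ≤ 1 := by
    intro f hf
    have := extremePoints_subset hf
    rwa [mem_closedBall_zero_iff] at this
  choose A hA1 hA2 hA3 using fun n : ℕ =>
    exists_separated E (ε := 1 / ((n : ℝ) + 1)) (by positivity)
  set W : Submodule ℝ (X →L[ℝ] ℝ) := (Submodule.span ℝ (⋃ n, A n)).topologicalClosure with hW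
  have hWtop : W = ⊤ := by
    refine eq_top_of_extreme hX W (Submodule.isClosed_topologicalClosure _) fun f hf => ?_
    have hcl : IsClosed (W : Set (X →L[ℝ] ℝ)) := Submodule.isClosed_topologicalClosure _
    rw [← SetLike.mem_coe, ← hcl.closure_eq, Metric.mem_closure_iff]
    intro ε hε
    obtain ⟨n, hn⟩ := exists_nat_one_div_lt hε
    obtain ⟨a, ha, hfa⟩ := hA3 n f hf
    refine ⟨a, Submodule.le_topologicalClosure _
      (Submodule.subset_span (mem_iUnion.mpr ⟨n, ha⟩)), ?_⟩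
    rw [dist_eq_norm]
    exact hfa.trans_lt hn
  have hcard : ν ≤ #(⋃ n, A n : Set (X →L[ℝ] ℝ)) := by
    obtain ⟨E', hE1, hE2⟩ := exists_dense_span (⋃ n, A n)
    have hEd : Dense E' := by
      intro g
      have hg : g ∈ W := by rw [hWtop]; trivial
      have hg' : g ∈ closure (Submodule.span ℝ (⋃ n, A n) : Set (X →L[ℝ] ℝ)) := hg
      have := closure_mono hE2 hg'
      rwa [closure_closure] at this
    obtain ⟨D, hD, hDE⟩ := exists_dense_of_dual hEd
    have h1 := (hdens D hD).trans (hDE.trans (max_le_max hE1 le_rfl))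
    rw [max_assoc, max_self] at h1
    rcases le_max_iff.mp h1 with h | h
    · exact h
    · exact absurd h (not_le.mpr hν)
  -- one of the `A n` is large
  obtain ⟨n, hn⟩ : ∃ n, ν ≤ #(A n) := by
    choose m hm using fun a : (⋃ n, A n : Set (X →L[ℝ] ℝ)) => mem_iUnion.mp a.2
    obtain ⟨n, hn⟩ := infinite_pigeonhole_card (fun a => (ULift.up (m a) : ULift.{u} ℕ)) ν hcard
      hν.le (by rw [hreg.cof_ord]; simpa using hν)
    refine ⟨n.down, hn.trans ?_⟩
    refine mk_le_of_injective (f := fun a : (fun a => (ULift.up (m a) : ULift.{u} ℕ)) ⁻¹' {n} =>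
      (⟨a.1.1, by
        have h1 : ULift.up (m a.1) = n := a.2
        have h2 : m a.1 = n.down := congrArg ULift.down h1
        rw [← h2]; exact hm a.1⟩ : A n.down)) ?_
    intro a b hab
    apply Subtype.ext
    apply Subtype.ext
    exact congrArg (fun x => x.1) hab
  obtain ⟨𝒜, h𝒜μ, h𝒜E, h𝒜s⟩ := hcov (1 / ((n : ℝ) + 1)) (by positivity)
  choose P hP1 hP2 using fun a : A n => h𝒜E a.1 (hA1 n a.2)
  choose s δ hδ hs using fun a : A n => h𝒜s (P a) (hP1 a) a.1 (hP2 a)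
  choose z α hα hz using fun a : A n =>
    exists_slice_of_extreme (hA1 n a.2) (s a) (hδ a)
  obtain ⟨Q, hQ⟩ := infinite_pigeonhole_card (fun a : A n => (⟨P a, hP1 a⟩ : 𝒜)) ν hn hν.le (by
    rw [hreg.cof_ord]
    exact h𝒜μ.trans_lt hμ)
  set I : Set (A n) := (fun a : A n => (⟨P a, hP1 a⟩ : 𝒜)) ⁻¹' {Q} with hI
  have hIP : ∀ a ∈ I, P a = Q.1 := by
    intro a ha
    have h1 : (⟨P a, hP1 a⟩ : 𝒜) = Q := ha
    exact congrArg Subtype.val h1
  have hpos : ∀ a : A n, 0 < ‖z a‖ + 1 := fun a => by positivity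
  refine hasSystem_of_oneSided hν hreg (I := I) hQ (fun i => (‖z i.1‖ + 1)⁻¹ • z i.1)
    (fun i => i.1.1) (fun i => (‖z i.1‖ + 1)⁻¹ * α i.1) ?_ ?_ ?_ ?_
  · intro i
    rw [norm_smul, norm_inv, Real.norm_of_nonneg (hpos i.1).le, inv_mul_le_iff₀ (hpos i.1)]
    linarith
  · exact fun i => hE1 _ (hA1 n i.1.2)
  · intro i
    rw [map_smul, smul_eq_mul]
    exact mul_lt_mul_of_pos_left (hα i.1) (inv_pos.mpr (hpos i.1))
  · intro i j hij
    rw [map_smul, smul_eq_mul]
    refine mul_le_mul_of_nonneg_left ?_ (inv_pos.mpr (hpos i.1)).le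
    by_contra hlt
    push Not at hlt
    have h1 := hz i.1 j.1.1 (hE1 _ (hA1 n j.1.2)) hlt
    have h2 : j.1.1 ∈ P i.1 := by
      rw [hIP i.1 i.2, ← hIP j.1 j.2]
      exact hP2 j.1
    have h3 := hs i.1 j.1.1 h2 h1
    have h4 := hA2 n j.1.1 j.1.2 i.1.1 i.1.2 (fun h => hij (Subtype.ext (Subtype.ext h.symm)))
    linarith

theorem exists_norm_of_covered [CompleteSpace X] (hX : IsAsplund X) {κ μ : Cardinal.{u}}
    (hκ : ℵ₀ < κ) {D : Set X} (hD : Dense D) (hDκ : #D = κ)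
    (hdens : ∀ D : Set X, Dense D → κ ≤ #D) (hμ : μ < κ) (hcov : Covered X μ) :
    ∃ N : X → ℝ, EquivNorm N ∧ NoProperNorming N := by
  refine exists_norm_of_hasSystem hX hκ hD hDκ fun ν hreg hν hνκ => ?_
  set ν' : Cardinal.{u} := max ν (Order.succ (max μ ℵ₀)) with hν'
  have hreg' : ν'.IsRegular := by
    rcases le_total ν (Order.succ (max μ ℵ₀)) with h | h
    · rw [hν', max_eq_right h]
      exact isRegular_succ (le_max_right _ _)
    · rw [hν', max_eq_left h]
      exact hreg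
  have hle : ν' ≤ κ := max_le hνκ (Order.succ_le_of_lt (max_lt hμ hκ))
  obtain ⟨S, C, δ, h1, h2, h3, h4⟩ := hasSystem_of_covered hX (μ := μ) (ν := ν')
    (lt_max_of_lt_right (Order.lt_succ_of_le (le_max_left _ _)))
    (lt_max_of_lt_left hν) hreg' (fun D hD => hle.trans (hdens D hD)) hcov
  exact ⟨S, C, δ, (le_max_left _ _).trans h1, h2, h3, h4⟩

end Pool.Agent.Lib_helper44.Asp
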