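import Pool.Agent.Lib_helper44.Asp.Char
import Pool.Agent.Lib_helper44.Asp.Main

/-!
# Weak-star scattered compact sets of extreme points with small characters

helper44, problem MP_2b9b38_an.
-/

set_option autoImplicit false

open Set Cardinal Topology TopologicalSpace

universe u

namespace Pool.Agent.Lib_helper44.Asp.Char

open Pool.Agent.LibH11.Renorm

variable {Y : Type u} [NormedAddCommGroup Y] [NormedSpace ℝ Y]

/-- **Choquet's lemma** for weak-star compact convex sets. -/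
theorem exists_slice {C : Set (WeakDual ℝ Y)} (hC : IsCompact C) (hconv : Convex ℝ C)
    {f : WeakDual ℝ Y} (hf : f ∈ extremePoints ℝ C) {W : Set (WeakDual ℝ Y)} (hW : IsOpen W)
    (hfW : f ∈ W) :
    ∃ (x : Y) (a : ℝ), a < f x ∧ ∀ g ∈ C, a < g x → g ∈ W := by
  have key : ∃ D : Set (WeakDual ℝ Y), IsCompact D ∧ Convex ℝ D ∧ D ⊆ C ∧ f ∉ D ∧ C \ W ⊆ D := by
    refine (hC.diff hW).induction_on (p := fun S => ∃ D : Set (WeakDual ℝ Y), IsCompact D ∧
      Convex ℝ D ∧ D ⊆ C ∧ f ∉ D ∧ S ⊆ D) ?_ ?_ ?_ ?_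
    · exact ⟨∅, isCompact_empty, convex_empty, empty_subset _, notMem_empty _, subset_rfl⟩
    · rintro s t hst ⟨D, h1, h2, h3, h4, h5⟩
      exact ⟨D, h1, h2, h3, h4, hst.trans h5⟩
    · rintro s t ⟨D, h1, h2, h3, h4, h5⟩ ⟨D', h1', h2', h3', h4', h5'⟩
      obtain ⟨E, g1, g2, g3, g4, g5, g6⟩ := exists_join hconv hf h1 h2 h3 h4 h1' h2' h3' h4'
      exact ⟨E, g1, g2, g3, g4, union_subset (h5.trans g5) (h5'.trans g6)⟩
    · rintro g ⟨hgC, hgW⟩
      have hne : ∃ y : Y, g y ≠ f y := by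
        by_contra hno
        push Not at hno
        have h1 : g = f := DFunLike.ext _ _ hno
        exact hgW (h1 ▸ hfW)
      obtain ⟨y, hy⟩ := hne
      have hlin : ∀ (a b : WeakDual ℝ Y) (p q : ℝ), (p • a + q • b) y = p * a y + q * b y :=
        fun a b p q => rfl
      rcases lt_or_gt_of_ne hy with h | h
      · refine ⟨(C \ W) ∩ {h | h y < (g y + f y) / 2}, inter_mem_nhdsWithin _
          ((isOpen_lt (WeakDual.eval_continuous y) continuous_const).mem_nhds ?_),
          C ∩ {h | h y ≤ (g y + f y) / 2},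
          hC.inter_right (isClosed_le (WeakDual.eval_continuous _) continuous_const), ?_,
          inter_subset_left, ?_, ?_⟩
        · show g y < (g y + f y) / 2
          linarith
        · refine hconv.inter ?_
          intro a ha b hb p q hp hq hpq
          show (p • a + q • b) y ≤ _
          rw [hlin]
          have h1 := mul_le_mul_of_nonneg_left (show a y ≤ _ from ha) hp
          have h2 := mul_le_mul_of_nonneg_left (show b y ≤ _ from hb) hq
          have h3 : p * ((g y + f y) / 2) + q * ((g y + f y) / 2) = (g y + f y) / 2 := by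
            rw [← add_mul, hpq, one_mul]
          linarith
        · rintro ⟨-, h1⟩
          have h2 : f y ≤ (g y + f y) / 2 := h1
          linarith
        · rintro k ⟨⟨hk, -⟩, hk'⟩
          have h1 : k y < (g y + f y) / 2 := hk'
          exact ⟨hk, h1.le⟩
      · refine ⟨(C \ W) ∩ {h | (g y + f y) / 2 < h y}, inter_mem_nhdsWithin _
          ((isOpen_lt continuous_const (WeakDual.eval_continuous y)).mem_nhds ?_),
          C ∩ {h | (g y + f y) / 2 ≤ h y},
          hC.inter_right (isClosed_le continuous_const (WeakDual.eval_continuous _)), ?_,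
          inter_subset_left, ?_, ?_⟩
        · show (g y + f y) / 2 < g y
          linarith
        · refine hconv.inter ?_
          intro a ha b hb p q hp hq hpq
          show _ ≤ (p • a + q • b) y
          rw [hlin]
          have h1 := mul_le_mul_of_nonneg_left (show _ ≤ a y from ha) hp
          have h2 := mul_le_mul_of_nonneg_left (show _ ≤ b y from hb) hq
          have h3 : p * ((g y + f y) / 2) + q * ((g y + f y) / 2) = (g y + f y) / 2 := by
            rw [← add_mul, hpq, one_mul]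
          linarith
        · rintro ⟨-, h1⟩
          have h2 : (g y + f y) / 2 ≤ f y := h1
          linarith
        · rintro k ⟨⟨hk, -⟩, hk'⟩
          have h1 : (g y + f y) / 2 < k y := hk'
          exact ⟨hk, h1.le⟩
  obtain ⟨D, hD1, hD2, -, hD4, hD5⟩ := key
  have : LocallyConvexSpace ℝ (WeakDual ℝ Y) :=
    inferInstanceAs (LocallyConvexSpace ℝ (WeakBilin (topDualPairing ℝ Y)))
  obtain ⟨Ψ, a, hΨ1, hΨ2⟩ := geometric_hahn_banach_closed_point hD2 hD1.isClosed hD4
  obtain ⟨x, hx⟩ := LinearMap.dualEmbedding_surjective (topDualPairing ℝ Y) Ψ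
  have hx' : ∀ g : WeakDual ℝ Y, Ψ g = g x := by
    intro g
    rw [← hx]
    rfl
  refine ⟨x, a, ?_, ?_⟩
  · rw [hx'] at hΨ2
    exact hΨ2
  · intro g hg hgx
    by_contra hgW
    have h1 := hΨ1 g (hD5 ⟨hg, hgW⟩)
    rw [hx'] at h1
    linarith

/-- A weak-star discrete set of extreme points gives a dominated system. -/
theorem hasSystem_of_discrete {K : Set (WeakDual ℝ Y)} {r : ℝ}
    (hr : ∀ f ∈ K, ‖WeakDual.toStrongDual f‖ ≤ r) {T : Set (WeakDual ℝ Y)} (hTK : T ⊆ K)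
    {ν : Cardinal.{u}} (hν : ℵ₀ < ν) (hreg : ν.IsRegular) (hT : ν ≤ #T)
    (hd : ∀ f ∈ T, ∃ V ∈ 𝓝 f, ∀ g ∈ T, g ∈ V → g = f)
    (hext : ∀ f ∈ T, f ∈ extremePoints ℝ (closure (convexHull ℝ K))) :
    HasSystem Y ν := by
  set C : Set (WeakDual ℝ Y) := closure (convexHull ℝ K) with hCdef
  have hball : IsClosed (WeakDual.toStrongDual ⁻¹' Metric.closedBall (0 : StrongDual ℝ Y) r) :=
    WeakDual.isClosed_closedBall _ _
  have hCball : C ⊆ WeakDual.toStrongDual ⁻¹' Metric.closedBall (0 : StrongDual ℝ Y) r := by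
    refine closure_minimal (convexHull_min ?_ ?_) hball
    · intro f hf
      rw [mem_preimage, mem_closedBall_zero_iff]
      exact hr f hf
    · intro a ha b hb p q hp hq hpq
      rw [mem_preimage, mem_closedBall_zero_iff] at ha hb ⊢
      rw [map_add, map_smul, map_smul]
      calc ‖p • WeakDual.toStrongDual a + q • WeakDual.toStrongDual b‖
          ≤ ‖p • WeakDual.toStrongDual a‖ + ‖q • WeakDual.toStrongDual b‖ := norm_add_le _ _
        _ = p * ‖WeakDual.toStrongDual a‖ + q * ‖WeakDual.toStrongDual b‖ := by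
            rw [norm_smul, norm_smul, Real.norm_of_nonneg hp, Real.norm_of_nonneg hq]
        _ ≤ p * r + q * r := add_le_add (mul_le_mul_of_nonneg_left ha hp)
            (mul_le_mul_of_nonneg_left hb hq)
        _ = r := by rw [← add_mul, hpq, one_mul]
  have hC : IsCompact C := (WeakDual.isCompact_closedBall _ _).of_isClosed_subset
    isClosed_closure hCball
  have hconv : Convex ℝ C := (convex_convexHull ℝ K).closure
  have hKC : K ⊆ C := (subset_convexHull ℝ K).trans subset_closure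
  have hslice : ∀ f : T, ∃ (x : Y) (a : ℝ), a < (f : WeakDual ℝ Y) x ∧
      ∀ g ∈ T, g ≠ f → (g : WeakDual ℝ Y) x ≤ a := by
    rintro ⟨f, hf⟩
    obtain ⟨V, hV, hVT⟩ := hd f hf
    obtain ⟨x, a, h1, h2⟩ := exists_slice hC hconv (hext f hf) isOpen_interior
      (mem_interior_iff_mem_nhds.mpr hV)
    refine ⟨x, a, h1, fun g hg hne => ?_⟩
    by_contra hlt
    push Not at hlt
    exact hne (hVT g hg (interior_subset (h2 g (hKC (hTK hg)) hlt)))
  choose x a hx ha using hslice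
  have hinf : Infinite T := by
    rw [← aleph0_le_mk_iff]
    exact hν.le.trans hT
  have hx0 : ∀ f : T, 0 < ‖x f‖ := by
    intro f
    obtain ⟨g, hg⟩ := exists_ne f
    rw [norm_pos_iff]
    intro h0
    have h1 := hx f
    have h2 := ha f g g.2 fun h => hg (Subtype.ext h)
    rw [h0, map_zero] at h1 h2
    linarith
  have hr' : 0 < max r 1 := lt_max_of_lt_right one_pos
  refine hasSystem_of_oneSided hν hreg hT (fun f : T => (‖x f‖)⁻¹ • x f)
    (fun f : T => (max r 1)⁻¹ • WeakDual.toStrongDual (f : WeakDual ℝ Y))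
    (fun f : T => (max r 1)⁻¹ * ((‖x f‖)⁻¹ * a f)) ?_ ?_ ?_ ?_
  · intro f
    rw [norm_smul, norm_inv, norm_norm, inv_mul_cancel₀ (hx0 f).ne']
  · intro f
    rw [norm_smul, norm_inv, Real.norm_of_nonneg hr'.le, inv_mul_le_iff₀ hr', mul_one]
    exact (hr f (hTK f.2)).trans (le_max_left _ _)
  · intro f
    have e : ((max r 1)⁻¹ • WeakDual.toStrongDual (f : WeakDual ℝ Y)) ((‖x f‖)⁻¹ • x f) =
        (max r 1)⁻¹ * ((‖x f‖)⁻¹ * (f : WeakDual ℝ Y) (x f)) := by
      rw [map_smul, smul_apply, smul_eq_mul, smul_eq_mul]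
      show (‖x f‖)⁻¹ * ((max r 1)⁻¹ * (f : WeakDual ℝ Y) (x f)) = _
      ring
    rw [e]
    exact mul_lt_mul_of_pos_left (mul_lt_mul_of_pos_left (hx f) (inv_pos.mpr (hx0 f)))
      (inv_pos.mpr hr')
  · intro f g hfg
    have e : ((max r 1)⁻¹ • WeakDual.toStrongDual (g : WeakDual ℝ Y)) ((‖x f‖)⁻¹ • x f) =
        (max r 1)⁻¹ * ((‖x f‖)⁻¹ * (g : WeakDual ℝ Y) (x f)) := by
      rw [map_smul, smul_apply, smul_eq_mul, smul_eq_mul]
      show (‖x f‖)⁻¹ * ((max r 1)⁻¹ * (g : WeakDual ℝ Y) (x f)) = _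
      ring
    rw [e]
    have h1 := ha f g g.2 fun h => hfg (Subtype.ext h).symm
    exact mul_le_mul_of_nonneg_left (mul_le_mul_of_nonneg_left h1 (inv_pos.mpr (hx0 f)).le)
      (inv_pos.mpr hr').le

variable {X : Type u} [NormedAddCommGroup X] [NormedSpace ℝ X]

/-- Dominated systems of a subspace extend to the space. -/
theorem hasSystem_of_subspace {p : Submodule ℝ X} {ν : Cardinal.{u}} (h : HasSystem p ν) :
    HasSystem X ν := by
  obtain ⟨S, C, δ, hS, hδ, h1, h2⟩ := h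
  choose e he1 he2 using fun f : p →L[ℝ] ℝ => exists_extension_norm_eq p f
  let G : p × (p →L[ℝ] ℝ) → X × (X →L[ℝ] ℝ) := fun s => (s.1, e s.2)
  refine ⟨G '' S, C, δ, ?_, hδ, ?_, ?_⟩
  · rw [mk_image_eq_of_injOn]
    · exact hS
    · intro s hs t ht hst
      by_contra hne
      have h3 := h2 s hs t ht hne
      have h4 : s.1 = t.1 := Subtype.ext (congrArg Prod.fst hst)
      rw [h4, (h1 t ht).2.2, abs_one] at h3
      linarith
  · rintro _ ⟨s, hs, rfl⟩
    obtain ⟨h3, h4, h5⟩ := h1 s hs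
    refine ⟨h3, ?_, ?_⟩
    · show ‖e s.2‖ ≤ C
      rw [he2]
      exact h4
    · show e s.2 s.1 = 1
      rw [he1]
      exact h5
  · rintro _ ⟨s, hs, rfl⟩ _ ⟨t, ht, rfl⟩ hne
    show |e t.2 s.1| ≤ 1 - δ
    rw [he1]
    exact h2 s hs t ht fun h => hne (by rw [h])

/-- The bad points of `K`: not extreme or of large character. -/
def Bad {Y : Type u} [NormedAddCommGroup Y] [NormedSpace ℝ Y] (lam : Cardinal.{u})
    (K : Set (WeakDual ℝ Y)) : Set (WeakDual ℝ Y) :=
  {f | f ∈ K ∧ ¬ (f ∈ extremePoints ℝ (closure (convexHull ℝ K)) ∧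
    ∃ B : Set (Set (WeakDual ℝ Y)), #B < lam ∧ (∀ U ∈ B, IsOpen U) ∧ K ∩ ⋂₀ B = {f})}

theorem hasSystem_of_dual {K : Set (WeakDual ℝ Y)} (hK : IsCompact K) {r : ℝ}
    (hr : ∀ f ∈ K, ‖WeakDual.toStrongDual f‖ ≤ r)
    (hsc : ∀ A ⊆ K, A.Nonempty → ∃ a ∈ A, ∃ U : Set (WeakDual ℝ Y), IsOpen U ∧ U ∩ A = {a})
    {lam ν : Cardinal.{u}} (hlam : lam.IsRegular) (hν : ν.IsRegular) (hlt : lam < ν)
    (hνK : ν ≤ #K) (hfew : #(Bad lam K) < ν) :
    HasSystem Y ν := by
  have hcs : CompactSpace K := isCompact_iff_compactSpace.mp hK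
  have hsc' : Scattered K := by
    intro A hA
    obtain ⟨a, ha, U, hU, hUA⟩ := hsc (Subtype.val '' A) (by
      rintro _ ⟨x, -, rfl⟩
      exact x.2) (hA.image _)
    obtain ⟨x, hx, rfl⟩ := ha
    have h1 : (x : WeakDual ℝ Y) ∈ U ∩ Subtype.val '' A := by rw [hUA]; exact mem_singleton _
    refine ⟨x, hx, Subtype.val ⁻¹' U, hU.preimage continuous_subtype_val, h1.1, ?_⟩
    intro b hb hbA
    have h2 : (b : WeakDual ℝ Y) ∈ U ∩ Subtype.val '' A := ⟨hb, b, hbA, rfl⟩
    rw [hUA] at h2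
    exact Subtype.ext h2
  have hbad : #{x : K | ¬ Small lam x} < ν := by
    refine lt_of_le_of_lt ?_ hfew
    rw [← mk_image_eq (f := (Subtype.val : K → WeakDual ℝ Y)) Subtype.val_injective]
    refine mk_le_mk_of_subset ?_
    rintro _ ⟨x, hx, rfl⟩
    refine ⟨x.2, fun h => hx ?_⟩
    obtain ⟨-, B, hB, hBo, hBx⟩ := h
    refine ⟨(fun U => Subtype.val ⁻¹' U) '' B, mk_image_le.trans_lt hB, ?_, ?_⟩
    · rintro _ ⟨U, hU, rfl⟩
      exact (hBo U hU).preimage continuous_subtype_val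
    · ext y
      rw [mem_sInter, mem_singleton_iff]
      constructor
      · intro h
        have h1 : (y : WeakDual ℝ Y) ∈ K ∩ ⋂₀ B := ⟨y.2, fun U hU => h _ ⟨U, hU, rfl⟩⟩
        rw [hBx] at h1
        exact Subtype.ext h1
      · rintro rfl _ ⟨U, hU, rfl⟩
        have h1 : (y : WeakDual ℝ Y) ∈ K ∩ ⋂₀ B := by rw [hBx]; exact mem_singleton _
        exact h1.2 U hU
  obtain ⟨T, hT, hTd⟩ := exists_discrete hsc' hlam hν hlt hνK hbad
  set T' : Set (WeakDual ℝ Y) :=
    {f | f ∈ Subtype.val '' T ∧ f ∈ extremePoints ℝ (closure (convexHull ℝ K))} with hT'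
  refine hasSystem_of_discrete hr (T := T') ?_ (hlam.aleph0_le.trans_lt hlt) hν ?_ ?_
    fun f hf => hf.2
  · rintro f ⟨⟨x, -, rfl⟩, -⟩
    exact x.2
  · by_contra hno
    push Not at hno
    have h1 : Subtype.val '' T ⊆ T' ∪ Bad lam K := by
      rintro f ⟨x, hx, rfl⟩
      by_cases h : (x : WeakDual ℝ Y) ∈ extremePoints ℝ (closure (convexHull ℝ K))
      · exact Or.inl ⟨⟨x, hx, rfl⟩, h⟩
      · exact Or.inr ⟨x.2, fun h' => h h'.1⟩
    have h2 := (mk_le_mk_of_subset h1).trans_lt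
      ((mk_union_le _ _).trans_lt (add_lt_of_lt hν.aleph0_le hno hfew))
    rw [mk_image_eq Subtype.val_injective] at h2
    exact absurd h2 (not_lt.mpr hT)
  · rintro f ⟨⟨x, hx, rfl⟩, -⟩
    obtain ⟨V, hV, hVT⟩ := hTd x hx
    rw [nhds_subtype, Filter.mem_comap] at hV
    obtain ⟨V', hV', hVV⟩ := hV
    refine ⟨V', hV', ?_⟩
    rintro g ⟨⟨y, hy, rfl⟩, -⟩ hg
    rw [hVT y hy (hVV hg)]

/-- The renorming from a weak-star compact scattered set of extreme points with small
characters. -/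
theorem exists_norm_of_dual [CompleteSpace X] (hA : IsAsplund X) {κ : Cardinal.{u}}
    (hκ : ℵ₀ < κ) {D : Set X} (hD : Dense D) (hDκ : #D = κ) (Y : Submodule ℝ X)
    (K : Set (WeakDual ℝ Y)) (hK : IsCompact K) {r : ℝ}
    (hr : ∀ f ∈ K, ‖WeakDual.toStrongDual f‖ ≤ r)
    (hsc : ∀ A ⊆ K, A.Nonempty → ∃ a ∈ A, ∃ U : Set (WeakDual ℝ Y), IsOpen U ∧ U ∩ A = {a})
    (hκK : κ ≤ #K) {lam : Cardinal.{u}} (hlam : lam.IsRegular) (hlt : lam < #K)
    (hfew : #(Bad lam K) < #K) :
    ∃ N : X → ℝ, EquivNorm N ∧ NoProperNorming N := by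
  refine exists_norm_of_hasSystem hA hκ hD hDκ fun μ hμ _ hμκ => ?_
  obtain ⟨ν, hν, hμν, h2, h3, h4⟩ := exists_regular hlam hlt hfew hμ (hμκ.trans hκK)
  obtain ⟨S, C, δ, hS, hδ, h5, h6⟩ :=
    hasSystem_of_subspace (hasSystem_of_dual hK hr hsc hlam hν h2 h4 h3)
  exact ⟨S, C, δ, hμν.trans hS, hδ, h5, h6⟩

end Pool.Agent.Lib_helper44.Asp.Char
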