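import Pool.Agent.LibH11.Renorm.Nec

/-!
# The dual unit ball of an Asplund space is spanned by its extreme points

Every norm-closed subspace of the dual of an Asplund space which contains all extreme points of
the dual unit ball is the whole dual.
-/

set_option autoImplicit false

open Set Filter Topology TopologicalSpace Cardinal

universe u

namespace Pool.Agent.Lib_helper44.Asp

open Pool.Agent.LibH11.Renorm

variable {X : Type u} [NormedAddCommGroup X] [NormedSpace ℝ X]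

/-- the functional `Φ + z` on the dual -/
noncomputable def tilt (Φ : StrongDual ℝ (X →L[ℝ] ℝ)) (z : X) : StrongDual ℝ (X →L[ℝ] ℝ) :=
  Φ + ContinuousLinearMap.apply ℝ ℝ z

lemma tilt_apply (Φ : StrongDual ℝ (X →L[ℝ] ℝ)) (z : X) (g : X →L[ℝ] ℝ) :
    tilt Φ z g = Φ g + g z := rfl

lemma le_tilt (Φ : StrongDual ℝ (X →L[ℝ] ℝ)) (z : X) {g : X →L[ℝ] ℝ} (hg : ‖g‖ ≤ 1) :
    Φ g + g z ≤ ‖tilt Φ z‖ := by
  have h := (tilt Φ z).le_opNorm g
  rw [tilt_apply, Real.norm_eq_abs] at h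
  calc Φ g + g z ≤ |Φ g + g z| := le_abs_self _
    _ ≤ ‖tilt Φ z‖ * ‖g‖ := h
    _ ≤ ‖tilt Φ z‖ * 1 := mul_le_mul_of_nonneg_left hg (ContinuousLinearMap.opNorm_nonneg _)
    _ = ‖tilt Φ z‖ := mul_one _

lemma exists_tilt (Φ : StrongDual ℝ (X →L[ℝ] ℝ)) (z : X) {δ : ℝ} (hδ : 0 < δ) :
    ∃ g : X →L[ℝ] ℝ, ‖g‖ ≤ 1 ∧ ‖tilt Φ z‖ - δ < Φ g + g z := by
  obtain ⟨g, hg1, hg⟩ := ContinuousLinearMap.exists_lt_apply_of_lt_opNorm (tilt Φ z)
    (sub_lt_self _ hδ)
  rw [Real.norm_eq_abs, tilt_apply] at hg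
  rcases lt_abs.mp hg with h | h
  · exact ⟨g, hg1.le, h⟩
  · refine ⟨-g, by rw [norm_neg]; exact hg1.le, ?_⟩
    rw [map_neg, neg_apply]
    linarith

lemma tilt_add (Φ : StrongDual ℝ (X →L[ℝ] ℝ)) (z v : X) :
    ‖tilt Φ (z + v)‖ ≤ ‖tilt Φ z‖ + ‖v‖ := by
  refine le_of_forall_pos_lt_add fun δ hδ => ?_
  obtain ⟨g, hg1, hg⟩ := exists_tilt Φ (z + v) hδ
  have h1 := le_tilt Φ z hg1
  have h2 : g v ≤ ‖v‖ := by
    have := g.le_opNorm v
    rw [Real.norm_eq_abs] at this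
    exact (le_abs_self _).trans (this.trans (mul_le_of_le_one_left (norm_nonneg _) hg1))
  rw [map_add] at hg
  linarith

lemma abs_apply_le {g : X →L[ℝ] ℝ} (hg : ‖g‖ ≤ 1) (v : X) : |g v| ≤ ‖v‖ := by
  have := g.le_opNorm v
  rw [Real.norm_eq_abs] at this
  exact this.trans (mul_le_of_le_one_left (norm_nonneg _) hg)

/-- For an Asplund space: after a small perturbation by a vector, a functional on the dual has
small slices on the dual ball. -/
lemma exists_slice_tilt (hX : IsAsplund X) (Φ : StrongDual ℝ (X →L[ℝ] ℝ)) (x₀ : X) {r : ℝ}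
    (hr : 0 < r) {η : ℝ} (hη : 0 < η) :
    ∃ z, ‖z - x₀‖ < r ∧ ∃ δ > 0, ∀ g g' : X →L[ℝ] ℝ, ‖g‖ ≤ 1 → ‖g'‖ ≤ 1 →
      ‖tilt Φ z‖ - δ < Φ g + g z → ‖tilt Φ z‖ - δ < Φ g' + g' z → ‖g - g'‖ ≤ η := by
  by_contra H
  push Not at H
  let Nd : Type u := {p : X × ℝ // 0 < p.2 ∧ ‖p.1 - x₀‖ + p.2 < r}
  have H' : ∀ a : Nd, ∃ q : (X →L[ℝ] ℝ) × (X →L[ℝ] ℝ) × X,
      ‖q.1‖ ≤ 1 ∧ ‖q.2.1‖ ≤ 1 ∧ ‖tilt Φ a.1.1‖ - a.1.2 * η / 32 < Φ q.1 + q.1 a.1.1 ∧
      ‖tilt Φ a.1.1‖ - a.1.2 * η / 32 < Φ q.2.1 + q.2.1 a.1.1 ∧ ‖q.2.2‖ ≤ 1 ∧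
      η < q.1 q.2.2 - q.2.1 q.2.2 := by
    rintro ⟨⟨z, ρ⟩, hρ, hz⟩
    simp only at hρ hz
    obtain ⟨g, g', hg, hg', h1, h2, h3⟩ := H z (by linarith) (ρ * η / 32) (by positivity)
    obtain ⟨w, hw1, hw⟩ := ContinuousLinearMap.exists_lt_apply_of_lt_opNorm _ h3
    rw [Real.norm_eq_abs] at hw
    have hw' : η < |g w - g' w| := hw
    rcases lt_abs.mp hw' with h | h
    · exact ⟨(g, g', w), hg, hg', h1, h2, hw1.le, h⟩
    · exact ⟨(g', g, w), hg', hg, h2, h1, hw1.le, by simpa using h⟩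
  choose q hq1 hq2 hq3 hq4 hq5 hq6 using H'
  let ρ' : Nd → ℝ := fun a => min (a.1.2 / 4) (a.1.2 * η / 96)
  have hρ'pos : ∀ a : Nd, 0 < ρ' a := by
    intro a
    have := a.2.1
    exact lt_min (by positivity) (by positivity)
  have hρ'1 : ∀ a : Nd, ρ' a ≤ a.1.2 / 4 := fun a => min_le_left _ _
  have hρ'2 : ∀ a : Nd, ρ' a ≤ a.1.2 * η / 96 := fun a => min_le_right _ _
  have hstep : ∀ (a : Nd) (s : ℝ), |s| ≤ 1 → ‖(s * (a.1.2 / 4)) • (q a).2.2‖ ≤ a.1.2 / 4 := by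
    intro a s hs
    have ha := a.2.1
    rw [norm_smul, Real.norm_eq_abs, abs_mul, abs_of_pos (by positivity : 0 < a.1.2 / 4)]
    have := hq5 a
    calc |s| * (a.1.2 / 4) * ‖(q a).2.2‖ ≤ 1 * (a.1.2 / 4) * 1 := by gcongr
      _ = a.1.2 / 4 := by ring
  let sgn : Bool → ℝ := fun b => if b then 1 else -1
  have hsgn : ∀ b, |sgn b| ≤ 1 := by
    intro b; cases b <;> simp [sgn]
  let child : Bool → Nd → Nd := fun b a =>
    ⟨(a.1.1 + (sgn b * (a.1.2 / 4)) • (q a).2.2, ρ' a), hρ'pos a, by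
      have h1 := hstep a (sgn b) (hsgn b)
      have h2 := hρ'1 a
      have h3 := a.2.1
      have h4 := a.2.2
      have h5 : ‖a.1.1 + (sgn b * (a.1.2 / 4)) • (q a).2.2 - x₀‖
          ≤ ‖a.1.1 - x₀‖ + ‖(sgn b * (a.1.2 / 4)) • (q a).2.2‖ := by
        rw [add_sub_right_comm]
        exact norm_add_le _ _
      simp only
      linarith⟩
  let V : Nd → Set (WeakDual ℝ X) := fun a =>
    {g | ‖WeakDual.toStrongDual g‖ ≤ 1 ∧
      ∀ w, g (w - a.1.1) ≤ ‖tilt Φ w‖ - ‖tilt Φ a.1.1‖ + 3 * a.1.2}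
  have hVmem : ∀ (a : Nd) (g : WeakDual ℝ X), g ∈ V a ↔
      ‖WeakDual.toStrongDual g‖ ≤ 1 ∧
      ∀ w, g (w - a.1.1) ≤ ‖tilt Φ w‖ - ‖tilt Φ a.1.1‖ + 3 * a.1.2 := fun a g => Iff.rfl
  have hball : ∀ g : WeakDual ℝ X, g ∈ WeakDual.toStrongDual ⁻¹'
      Metric.closedBall (0 : StrongDual ℝ X) 1 ↔ ‖WeakDual.toStrongDual g‖ ≤ 1 := by
    intro g
    rw [mem_preimage, mem_closedBall_zero_iff]
  have hVclosed : ∀ a, IsClosed (V a) := by
    intro a
    have : V a = (WeakDual.toStrongDual ⁻¹' Metric.closedBall (0 : StrongDual ℝ X) 1) ∩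
        ⋂ w, {g : WeakDual ℝ X | g (w - a.1.1) ≤ ‖tilt Φ w‖ - ‖tilt Φ a.1.1‖ + 3 * a.1.2} := by
      ext g
      rw [hVmem, mem_inter_iff, mem_iInter, hball]
      rfl
    rw [this]
    exact (WeakDual.isClosed_closedBall _ _).inter (isClosed_iInter fun w =>
      isClosed_le (WeakDual.eval_continuous _) continuous_const)
  have hroot : ‖x₀ - x₀‖ + r / 2 < r := by simp; linarith
  refine tree_contradiction hX (Nd := Nd) ⟨(x₀, r / 2), by simp only; linarith, hroot⟩ child V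
    hVclosed ?_ ?_ ?_ (fun a => (q a).2.2) hq5 (ε := η / 2) (by positivity) ?_
  · intro a
    have ha := a.2.1
    obtain ⟨g, hg1, hg2⟩ := exists_tilt Φ a.1.1 (δ := 3 * a.1.2) (by positivity)
    refine ⟨StrongDual.toWeakDual g, hg1, fun w => ?_⟩
    have h1 := le_tilt Φ w hg1
    rw [StrongDual.toWeakDual_apply, map_sub]
    linarith
  · refine (WeakDual.isCompact_closedBall (0 : StrongDual ℝ X) 1).of_isClosed_subset
      (hVclosed _) ?_
    intro g hg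
    rw [hball]
    exact ((hVmem _ _).1 hg).1
  · intro b a g hg
    rw [hVmem] at hg ⊢
    refine ⟨hg.1, fun w => ?_⟩
    have h1 := hg.2 w
    have h2 : (child b a).1.2 = ρ' a := rfl
    set v : X := (sgn b * (a.1.2 / 4)) • (q a).2.2 with hv
    have h3 : (child b a).1.1 = a.1.1 + v := rfl
    rw [h2, h3] at h1
    have h4 : ‖v‖ ≤ a.1.2 / 4 := hstep a (sgn b) (hsgn b)
    have h5 : g v ≤ ‖v‖ := (le_abs_self _).trans (abs_apply_le (g := WeakDual.toStrongDual g) hg.1 v)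
    have h6 : g (w - a.1.1) = g (w - (a.1.1 + v)) + g v := by
      rw [← map_add]
      congr 1
      abel
    have h7 : ‖tilt Φ a.1.1‖ ≤ ‖tilt Φ (a.1.1 + v)‖ + ‖v‖ := by
      have := tilt_add Φ (a.1.1 + v) (-v)
      rw [add_neg_cancel_right, norm_neg] at this
      exact this
    have h8 := hρ'1 a
    have h9 := a.2.1
    rw [h6]
    linarith
  · intro a f hf g hg
    rw [hVmem] at hf hg
    have ha := a.2.1
    set t : ℝ := a.1.2 / 4 with ht
    have htpos : 0 < t := by positivity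
    have hf2 := hf.2 a.1.1
    have hg2 := hg.2 a.1.1
    have e1 : (child true a).1.1 = a.1.1 + (1 * t) • (q a).2.2 := rfl
    have e2 : (child false a).1.1 = a.1.1 + (-1 * t) • (q a).2.2 := rfl
    have e3 : (child true a).1.2 = ρ' a := rfl
    have e4 : (child false a).1.2 = ρ' a := rfl
    have hρ := hρ'2 a
    have e5 : a.1.1 - (a.1.1 + (1 * t) • (q a).2.2) = (-t) • (q a).2.2 := by
      rw [one_mul, neg_smul]; abel
    have e6 : a.1.1 - (a.1.1 + (-1 * t) • (q a).2.2) = t • (q a).2.2 := by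
      rw [neg_one_mul, neg_smul]; abel
    rw [e1, e3, e5, map_smul, smul_eq_mul] at hf2
    rw [e2, e4, e6, map_smul, smul_eq_mul] at hg2
    have k1 := le_tilt Φ (a.1.1 + (1 * t) • (q a).2.2) (hq1 a)
    have k2 := le_tilt Φ (a.1.1 + (-1 * t) • (q a).2.2) (hq2 a)
    rw [map_add, map_smul, smul_eq_mul] at k1 k2
    have k3 := hq3 a
    have k4 := hq4 a
    have k7 := hq6 a
    have main : t * (η / 2) ≤ t * (f (q a).2.2 - g (q a).2.2) := by
      have k8 : t * η < t * ((q a).1 (q a).2.2 - (q a).2.1 (q a).2.2) :=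
        mul_lt_mul_of_pos_left k7 htpos
      have k9 : a.1.2 = 4 * t := by rw [ht]; ring
      have k10 : ρ' a ≤ t * η / 24 := by
        refine hρ.trans (le_of_eq ?_)
        rw [k9]; ring
      have k11 : a.1.2 * η / 32 = t * η / 8 := by rw [k9]; ring
      rw [k11] at k3 k4
      nlinarith
    exact le_of_mul_le_mul_left main htpos

/-- For an Asplund space, a non-zero functional on the dual is non-zero at an extreme point of
the dual unit ball. -/
theorem exists_extreme [CompleteSpace X] (hX : IsAsplund X) (Φ : StrongDual ℝ (X →L[ℝ] ℝ))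
    (hΦ : Φ ≠ 0) :
    ∃ f : X →L[ℝ] ℝ, f ∈ extremePoints ℝ (Metric.closedBall (0 : X →L[ℝ] ℝ) 1) ∧ Φ f ≠ 0 := by
  have hΦ0 : 0 < ‖Φ‖ := lt_of_le_of_ne (ContinuousLinearMap.opNorm_nonneg Φ)
    fun h => hΦ ((ContinuousLinearMap.opNorm_zero_iff Φ).1 h.symm)
  let G : ℕ → Set X := fun n => {z | ∃ δ > 0, ∀ g g' : X →L[ℝ] ℝ, ‖g‖ ≤ 1 → ‖g'‖ ≤ 1 →
      ‖tilt Φ z‖ - δ < Φ g + g z → ‖tilt Φ z‖ - δ < Φ g' + g' z → ‖g - g'‖ ≤ 1 / ((n : ℝ) + 1)}
  have hGopen : ∀ n, IsOpen (G n) := by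
    intro n
    rw [Metric.isOpen_iff]
    rintro z ⟨δ, hδ, h⟩
    refine ⟨δ / 4, by positivity, fun z' hz' => ?_⟩
    rw [Metric.mem_ball, dist_eq_norm] at hz'
    refine ⟨δ / 4, by positivity, ?_⟩
    have hk : ∀ g : X →L[ℝ] ℝ, ‖g‖ ≤ 1 → ‖tilt Φ z'‖ - δ / 4 < Φ g + g z' →
        ‖tilt Φ z‖ - δ < Φ g + g z := by
      intro g hg hgz
      have h1 : ‖tilt Φ z‖ ≤ ‖tilt Φ z'‖ + ‖z' - z‖ := by
        have := tilt_add Φ z' (z - z')
        rw [add_sub_cancel, norm_sub_rev] at this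
        exact this
      have h2 := abs_apply_le hg (z' - z)
      rw [map_sub, abs_le] at h2
      linarith [h2.2]
    intro g g' hg hg' h1 h2
    exact h g g' hg hg' (hk g hg h1) (hk g' hg' h2)
  have hGdense : ∀ n, Dense (G n) := by
    intro n
    rw [Metric.dense_iff]
    intro x r hr
    obtain ⟨z, hz, hzG⟩ := exists_slice_tilt hX Φ x hr (η := 1 / ((n : ℝ) + 1)) (by positivity)
    exact ⟨z, by rw [Metric.mem_ball, dist_eq_norm]; exact hz, hzG⟩
  have hdense := dense_iInter_of_isOpen hGopen hGdense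
  obtain ⟨z, hzG, hz⟩ := hdense.exists_dist_lt 0 (ε := ‖Φ‖ / 2) (by positivity)
  rw [dist_comm, dist_zero_right] at hz
  rw [mem_iInter] at hzG
  choose δ hδ hs using hzG
  -- a maximising sequence
  choose g hg1 hg2 using fun k : ℕ => exists_tilt Φ z (δ := 1 / ((k : ℝ) + 1)) (by positivity)
  have hcauchy : CauchySeq g := by
    rw [Metric.cauchySeq_iff']
    intro ε hε
    obtain ⟨n, hn⟩ := exists_nat_one_div_lt hε
    obtain ⟨N, hN⟩ := exists_nat_one_div_lt (hδ n)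
    refine ⟨N, fun k hk => ?_⟩
    rw [dist_eq_norm]
    have hb : ∀ k, N ≤ k → ‖tilt Φ z‖ - δ n < Φ (g k) + g k z := by
      intro k hk
      have h1 : 1 / ((k : ℝ) + 1) ≤ 1 / ((N : ℝ) + 1) := by
        apply one_div_le_one_div_of_le (by positivity)
        have : (N : ℝ) ≤ k := by exact_mod_cast hk
        linarith
      have h2 := hg2 k
      linarith
    exact (hs n _ _ (hg1 k) (hg1 N) (hb k hk) (hb N le_rfl)).trans_lt hn
  obtain ⟨f, hf⟩ := cauchySeq_tendsto_of_complete hcauchy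
  have hf1 : ‖f‖ ≤ 1 := le_of_tendsto hf.norm (Eventually.of_forall hg1)
  have hval : ‖tilt Φ z‖ ≤ Φ f + f z := by
    have h1 : Tendsto (fun k => tilt Φ z (g k)) atTop (𝓝 (tilt Φ z f)) :=
      ((tilt Φ z).continuous.tendsto f).comp hf
    have h2 : Tendsto (fun k : ℕ => ‖tilt Φ z‖ - 1 / ((k : ℝ) + 1)) atTop
        (𝓝 (‖tilt Φ z‖ - 0)) := tendsto_const_nhds.sub tendsto_one_div_add_atTop_nhds_zero_nat
    rw [sub_zero] at h2
    have := le_of_tendsto_of_tendsto' h2 h1 fun k => (hg2 k).le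
    exact this
  have huniq : ∀ h : X →L[ℝ] ℝ, ‖h‖ ≤ 1 → ‖tilt Φ z‖ ≤ Φ h + h z → h = f := by
    intro h hh1 hh
    rw [← sub_eq_zero, ← norm_le_zero_iff]
    refine le_of_forall_pos_lt_add fun ε hε => ?_
    obtain ⟨n, hn⟩ := exists_nat_one_div_lt hε
    rw [zero_add]
    exact (hs n h f hh1 hf1 (by linarith [hδ n]) (by linarith [hδ n])).trans_lt hn
  refine ⟨f, ?_, ?_⟩
  · rw [mem_extremePoints]
    refine ⟨by rw [mem_closedBall_zero_iff]; exact hf1, ?_⟩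
    intro a ha b hb hab
    rw [mem_closedBall_zero_iff] at ha hb
    obtain ⟨s, t, hs0, ht0, hst, rfl⟩ := hab
    have h1 := le_tilt Φ z ha
    have h2 := le_tilt Φ z hb
    have h3 : s * (Φ a + a z) + t * (Φ b + b z) = Φ (s • a + t • b) + (s • a + t • b) z := by
      rw [map_add, map_smul, map_smul, add_apply, smul_apply,
        smul_apply, smul_eq_mul, smul_eq_mul, smul_eq_mul, smul_eq_mul]
      ring
    rw [← h3] at hval
    have h4 : s * ‖tilt Φ z‖ + t * ‖tilt Φ z‖ = ‖tilt Φ z‖ := by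
      rw [← add_mul, hst, one_mul]
    have ha' : ‖tilt Φ z‖ ≤ Φ a + a z := by
      by_contra hlt
      push Not at hlt
      have h5 := mul_lt_mul_of_pos_left hlt hs0
      have h6 := mul_le_mul_of_nonneg_left h2 ht0.le
      linarith
    have hb' : ‖tilt Φ z‖ ≤ Φ b + b z := by
      by_contra hlt
      push Not at hlt
      have h5 := mul_lt_mul_of_pos_left hlt ht0
      have h6 := mul_le_mul_of_nonneg_left h1 hs0.le
      linarith
    exact ⟨huniq a ha ha', huniq b hb hb'⟩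
  · intro h0
    have h1 := (abs_le.mp (abs_apply_le hf1 z)).2
    have h2 : ‖Φ‖ ≤ ‖tilt Φ z‖ + ‖z‖ := by
      have h3 : tilt Φ 0 = Φ := by
        ext g
        rw [tilt_apply, map_zero, add_zero]
      have := tilt_add Φ z (-z)
      rw [add_neg_cancel, h3, norm_neg] at this
      exact this
    rw [h0, zero_add] at hval
    linarith

/-- A norm-closed subspace of the dual of an Asplund space which contains the extreme points of
the dual unit ball is the whole dual. -/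
theorem eq_top_of_extreme [CompleteSpace X] (hX : IsAsplund X) (L : Submodule ℝ (X →L[ℝ] ℝ))
    (hL : IsClosed (L : Set (X →L[ℝ] ℝ)))
    (h : ∀ f ∈ extremePoints ℝ (Metric.closedBall (0 : X →L[ℝ] ℝ) 1), f ∈ L) : L = ⊤ := by
  by_contra hne
  obtain ⟨x, hx⟩ : ∃ x, x ∉ L := by
    by_contra hall
    push Not at hall
    exact hne (eq_top_iff.mpr fun y _ => hall y)
  obtain ⟨Φ, c, hΦ1, hΦ2⟩ := geometric_hahn_banach_closed_point (s := (L : Set (X →L[ℝ] ℝ)))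
    L.convex hL hx
  have hc : 0 < c := by
    have := hΦ1 0 L.zero_mem
    rwa [map_zero] at this
  have hzero : ∀ a ∈ L, Φ a = 0 := by
    intro a ha
    by_contra ha0
    have := hΦ1 ((c / Φ a) • a) (L.smul_mem _ ha)
    rw [map_smul, smul_eq_mul, div_mul_cancel₀ _ ha0] at this
    exact lt_irrefl _ this
  obtain ⟨f, hf, hf0⟩ := exists_extreme hX Φ (by
    rintro rfl
    rw [zero_apply] at hΦ2
    linarith)
  exact hf0 (hzero f (h f hf))

end Pool.Agent.Lib_helper44.Asp
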